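import Pool.Agent.CollatzMerge.Bound

/-!
# The survival probability of the pair chain
-/

set_option autoImplicit false

open Real

namespace Pool.Agent.CollatzMerge

theorem sq_avg (s : St) :
    (((sE s).1 : ℝ) ^ 2 + ((sO s).1 : ℝ) ^ 2) / 2 ≤ (s.1 : ℝ) ^ 2 + 1 := by
  obtain ⟨k, d⟩ := s
  by_cases h2 : (2 : ℤ) ∣ d
  · simp [sE, sO, h2]
  · by_cases h0 : k = 0
    · subst h0; simp [sE, sO, h2]
    · obtain ⟨j, rfl⟩ : ∃ j, k = j + 1 := ⟨k - 1, by omega⟩
      simp only [sE, sO, h2, if_false, h0, Nat.add_sub_cancel]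
      push_cast
      nlinarith

/-- The bound after running the chain for `t` steps first. -/
theorem phase {c : ℝ} (hc : 0 < c) {κ : ℝ} {f : St → ℝ} (hκ : 0 < κ) (hf : Sub κ f)
    (hb : ∀ s : St, f s ≤ c * √κ * (1 + s.1 + V s)) {l : ℝ} (hl : 0 < l) (t : ℕ) :
    ∀ s : St, f s ≤ t * κ + c * √κ *
      (1 + l / 2 + ((s.1 : ℝ) ^ 2 + t) / (2 * l) + 0.966 ^ t * V s + 17 * (1 - 0.966 ^ t)) := by
  have hsq := Real.sqrt_pos.mpr hκ
  induction t with
  | zero =>
    intro s
    refine (hb s).trans ?_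
    have h1 : (s.1 : ℝ) ≤ l / 2 + ((s.1 : ℝ) ^ 2 + (0 : ℕ)) / (2 * l) := by
      have h2 : l / 2 + ((s.1 : ℝ) ^ 2 + (0 : ℕ)) / (2 * l) - s.1 = (l - s.1) ^ 2 / (2 * l) := by
        field_simp
        push_cast
        ring
      have h3 : 0 ≤ (l - s.1) ^ 2 / (2 * l) := by positivity
      linarith
    have h4 : c * √κ * (1 + s.1 + V s) ≤ c * √κ *
      (1 + l / 2 + ((s.1 : ℝ) ^ 2 + (0 : ℕ)) / (2 * l) + 0.966 ^ 0 * V s +
        17 * (1 - 0.966 ^ 0)) := by
      refine mul_le_mul_of_nonneg_left ?_ (by positivity)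
      norm_num at h1 ⊢
      linarith
    push_cast at h4 ⊢
    linarith
  | succ t ih =>
    intro s
    by_cases hs : s = (0, 0)
    · subst hs
      rw [hf.zero]
      have hV := V_nonneg (0, 0)
      have h1 : (0.966 : ℝ) ^ (t + 1) ≤ 1 := pow_le_one₀ (by norm_num) (by norm_num)
      have h2 : 0 ≤ 17 * (1 - (0.966 : ℝ) ^ (t + 1)) := by linarith
      positivity
    · have h1 := hf.step s hs
      have hE := ih (sE s)
      have hO := ih (sO s)
      have hV := V_avg s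
      have hk := sq_avg s
      have hp : (0 : ℝ) < 0.966 ^ t := by positivity
      have h2 : f s ≤ κ + (t * κ + c * √κ * (1 + l / 2 +
          ((((sE s).1 : ℝ) ^ 2 + ((sO s).1 : ℝ) ^ 2) / 2 + t) / (2 * l) +
          0.966 ^ t * ((V (sE s) + V (sO s)) / 2) + 17 * (1 - 0.966 ^ t))) := by
        refine h1.trans ?_
        have : (f (sE s) + f (sO s)) / 2 ≤ t * κ + c * √κ * (1 + l / 2 +
          ((((sE s).1 : ℝ) ^ 2 + ((sO s).1 : ℝ) ^ 2) / 2 + t) / (2 * l) +
          0.966 ^ t * ((V (sE s) + V (sO s)) / 2) + 17 * (1 - 0.966 ^ t)) := by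
          have e : t * κ + c * √κ * (1 + l / 2 +
            ((((sE s).1 : ℝ) ^ 2 + ((sO s).1 : ℝ) ^ 2) / 2 + t) / (2 * l) +
            0.966 ^ t * ((V (sE s) + V (sO s)) / 2) + 17 * (1 - 0.966 ^ t)) =
            ((t * κ + c * √κ * (1 + l / 2 + (((sE s).1 : ℝ) ^ 2 + t) / (2 * l) +
              0.966 ^ t * V (sE s) + 17 * (1 - 0.966 ^ t))) +
            (t * κ + c * √κ * (1 + l / 2 + (((sO s).1 : ℝ) ^ 2 + t) / (2 * l) +
              0.966 ^ t * V (sO s) + 17 * (1 - 0.966 ^ t)))) / 2 := by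
            ring
          rw [e]
          linarith
        linarith
      refine h2.trans ?_
      have h3 : 0.966 ^ t * ((V (sE s) + V (sO s)) / 2) ≤ 0.966 ^ t * (0.966 * V s + 0.56) := by
        gcongr
      have h4 : ((((sE s).1 : ℝ) ^ 2 + ((sO s).1 : ℝ) ^ 2) / 2 + t) / (2 * l) ≤
          ((s.1 : ℝ) ^ 2 + ((t + 1 : ℕ) : ℝ)) / (2 * l) := by
        refine div_le_div_of_nonneg_right ?_ (by positivity)
        push_cast
        linarith
      have h5 : 1 + l / 2 + ((((sE s).1 : ℝ) ^ 2 + ((sO s).1 : ℝ) ^ 2) / 2 + t) / (2 * l) +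
          0.966 ^ t * ((V (sE s) + V (sO s)) / 2) + 17 * (1 - 0.966 ^ t) ≤
          1 + l / 2 + ((s.1 : ℝ) ^ 2 + ((t + 1 : ℕ) : ℝ)) / (2 * l) + 0.966 ^ (t + 1) * V s +
          17 * (1 - 0.966 ^ (t + 1)) := by
        have h6 : (0.966 : ℝ) ^ (t + 1) = 0.966 ^ t * 0.966 := pow_succ _ _
        rw [h6]
        have h7 : 0.966 ^ t * (0.966 * V s + 0.56) = 0.966 ^ t * 0.966 * V s + 0.966 ^ t * 0.56 := by
          ring
        rw [h7] at h3
        generalize (0.966 : ℝ) ^ t = p at *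
        norm_num at h3 ⊢
        push_cast at h4
        linarith
      have h8 := mul_le_mul_of_nonneg_left h5 (by positivity : 0 ≤ c * √κ)
      push_cast at h8 ⊢
      linarith

theorem log_bound : ∃ c : ℝ, 0 < c ∧ ∀ (κ : ℝ) (f : St → ℝ), 0 < κ → κ ≤ 1 → Sub κ f →
    ∀ s : St, f s ≤ c * √κ * (1 + s.1 + √(Real.log (2 + |(s.2 : ℝ)|))) := by
  obtain ⟨c, hc, hb⟩ := basic_bound
  refine ⟨16 + 40 * c, by positivity, ?_⟩
  intro κ f hκ hκ1 hf s
  have hsq := Real.sqrt_pos.mpr hκ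
  have hκ2 : √κ * √κ = κ := Real.mul_self_sqrt hκ.le
  set L := Real.log (2 + |(s.2 : ℝ)|) with hL
  have hL0 : 0 < L := Real.log_pos (by have := abs_nonneg (s.2 : ℝ); linarith)
  have hLs := Real.sqrt_pos.mpr hL0
  have hL2 : √L * √L = L := Real.mul_self_sqrt hL0.le
  have hk : (0 : ℝ) ≤ s.1 := Nat.cast_nonneg _
  rcases le_or_gt (√κ * √L) 1 with hle | hgt
  · set t := ⌈15 * L⌉₊ with ht
    have ht1 : 15 * L ≤ t := Nat.le_ceil _
    have ht2 : (t : ℝ) ≤ 15 * L + 1 := (Nat.ceil_lt_add_one (by positivity)).le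
    set l : ℝ := s.1 + √L + 1 with hl
    have hl0 : 0 < l := by positivity
    have h1 := phase hc hκ hf (hb κ f hκ hκ1 hf) hl0 t s
    -- the contraction of `V`
    have hV : 0.966 ^ t * V s ≤ 1 := by
      have e1 : V s ≤ Real.exp (L / 2) := by
        unfold V
        rw [Real.sqrt_le_left (Real.exp_pos _).le]
        have e2 : Real.exp (L / 2) ^ 2 = 2 + |(s.2 : ℝ)| := by
          rw [← Real.exp_nat_mul]
          have : ((2 : ℕ) : ℝ) * (L / 2) = L := by push_cast; ring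
          rw [this, hL, Real.exp_log (by positivity)]
        rw [e2]
        have e3 : |(s.2 : ℝ)| / 3 ^ s.1 ≤ |(s.2 : ℝ)| := by
          refine div_le_self (abs_nonneg _) ?_
          exact one_le_pow₀ (by norm_num)
        linarith
      have e4 : (0.966 : ℝ) ^ t ≤ Real.exp (-(L / 2)) := by
        have e5 : (0.966 : ℝ) ≤ Real.exp (-0.034) := by
          have := Real.add_one_le_exp (-0.034 : ℝ)
          norm_num at this ⊢
          linarith
        calc (0.966 : ℝ) ^ t ≤ Real.exp (-0.034) ^ t := by gcongr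
          _ = Real.exp (t * (-0.034)) := by rw [← Real.exp_nat_mul]
          _ ≤ Real.exp (-(L / 2)) := by
            rw [Real.exp_le_exp]
            norm_num
            linarith
      have e6 := V_nonneg s
      calc 0.966 ^ t * V s ≤ Real.exp (-(L / 2)) * Real.exp (L / 2) := by
            gcongr
        _ = 1 := by rw [← Real.exp_add]; simp
    have hA : l / 2 + ((s.1 : ℝ) ^ 2 + t) / (2 * l) ≤ s.1 + 9 * √L + 2 := by
      have e1 : (s.1 : ℝ) ^ 2 + t ≤ l * (s.1 + 15 * √L + 1) := by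
        have : l * (s.1 + 15 * √L + 1) = (s.1 : ℝ) ^ 2 + 15 * (√L * √L) + 1 +
            (16 * s.1 * √L + 2 * s.1 + 16 * √L) := by rw [hl]; ring
        rw [this, hL2]
        have : 0 ≤ 16 * (s.1 : ℝ) * √L + 2 * s.1 + 16 * √L := by positivity
        linarith
      have e2 : ((s.1 : ℝ) ^ 2 + t) / (2 * l) ≤ (s.1 + 15 * √L + 1) / 2 := by
        rw [div_le_iff₀ (by positivity)]
        linarith
      rw [hl]
      rw [hl] at e2
      linarith
    have hB : t * κ ≤ 16 * √κ * (1 + s.1 + √L) := by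
      have e1 : t * κ ≤ (15 * L + 1) * κ := by gcongr
      have e2 : L * κ ≤ √κ * √L := by
        have : L * κ = (√κ * √L) * (√κ * √L) := by
          rw [← hL2, ← hκ2]
          rw [hL2, hκ2]
          nlinarith
        rw [this]
        have : 0 ≤ √κ * √L := by positivity
        nlinarith
      have hsq1 : √κ ≤ 1 := Real.sqrt_le_one.mpr hκ1
      have hκs : κ ≤ √κ := by nlinarith
      have e3 : 0 ≤ √κ * s.1 := by positivity
      have e4 : 0 ≤ √κ * √L := by positivity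
      nlinarith
    have hp : 0 ≤ (0.966 : ℝ) ^ t := by positivity
    have hC : 1 + l / 2 + ((s.1 : ℝ) ^ 2 + t) / (2 * l) + 0.966 ^ t * V s +
        17 * (1 - 0.966 ^ t) ≤ 40 * (1 + s.1 + √L) := by
      linarith
    have hD := mul_le_mul_of_nonneg_left hC (by positivity : 0 ≤ c * √κ)
    calc f s ≤ t * κ + c * √κ * (1 + l / 2 + ((s.1 : ℝ) ^ 2 + t) / (2 * l) + 0.966 ^ t * V s +
          17 * (1 - 0.966 ^ t)) := h1
      _ ≤ 16 * √κ * (1 + s.1 + √L) + c * √κ * (40 * (1 + s.1 + √L)) := by linarith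
      _ = _ := by ring
  · have h1 := hf.le_one s
    have h2 : √κ * √L ≤ (16 + 40 * c) * √κ * (1 + s.1 + √L) := by
      have e1 : (16 + 40 * c) * √κ * (1 + s.1 + √L) =
        (16 + 40 * c) * (√κ * √L) + (16 + 40 * c) * √κ * (1 + s.1) := by ring
      rw [e1]
      have e2 : 0 ≤ (16 + 40 * c) * √κ * (1 + s.1) := by positivity
      have e3 : 0 ≤ √κ * √L := by positivity
      nlinarith
    linarith

/-- Averages of the survival probabilities are subsolutions. -/
theorem Sub_avg (K : ℕ) (hK : 0 < K) :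
    Sub (1 / K) (fun s => (∑ j ∈ Finset.range K, q j s) / K) := by
  have hKR : (0 : ℝ) < K := by exact_mod_cast hK
  refine ⟨fun s => ?_, fun s => ?_, ?_, fun s hs => ?_⟩
  · exact div_nonneg (Finset.sum_nonneg fun j _ => q_nonneg j s) hKR.le
  · rw [div_le_one hKR]
    calc ∑ j ∈ Finset.range K, q j s ≤ ∑ j ∈ Finset.range K, (1 : ℝ) :=
          Finset.sum_le_sum fun j _ => q_le_one j s
      _ = K := by simp
  · simp [q_zero_zero]
  · obtain ⟨J, rfl⟩ : ∃ J, K = J + 1 := ⟨K - 1, by omega⟩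
    have h1 : ∑ j ∈ Finset.range (J + 1), q j s ≤
        1 + ∑ j ∈ Finset.range (J + 1), (q j (sE s) + q j (sO s)) / 2 := by
      rw [Finset.sum_range_succ']
      have h2 : ∑ j ∈ Finset.range J, q (j + 1) s =
          ∑ j ∈ Finset.range J, (q j (sE s) + q j (sO s)) / 2 := by
        refine Finset.sum_congr rfl fun j _ => ?_
        rw [q, if_neg hs]
      rw [h2, Finset.sum_range_succ]
      have h3 := q_le_one 0 s
      have h4 := q_nonneg J (sE s)
      have h5 := q_nonneg J (sO s)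
      linarith
    have h6 : ∑ j ∈ Finset.range (J + 1), (q j (sE s) + q j (sO s)) / 2 =
        (∑ j ∈ Finset.range (J + 1), q j (sE s) + ∑ j ∈ Finset.range (J + 1), q j (sO s)) / 2 := by
      rw [← Finset.sum_add_distrib, Finset.sum_div]
    rw [h6] at h1
    rw [div_le_iff₀ hKR]
    have h7 : (1 / ((J + 1 : ℕ) : ℝ) + ((∑ j ∈ Finset.range (J + 1), q j (sE s)) / ((J + 1 : ℕ) : ℝ) +
        (∑ j ∈ Finset.range (J + 1), q j (sO s)) / ((J + 1 : ℕ) : ℝ)) / 2) * ((J + 1 : ℕ) : ℝ) =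
        1 + (∑ j ∈ Finset.range (J + 1), q j (sE s) +
          ∑ j ∈ Finset.range (J + 1), q j (sO s)) / 2 := by
      field_simp
    rw [h7]
    exact h1

theorem q_le_avg (K : ℕ) (hK : 0 < K) (s : St) : q K s ≤ (∑ j ∈ Finset.range K, q j s) / K := by
  have hKR : (0 : ℝ) < K := by exact_mod_cast hK
  rw [le_div_iff₀ hKR]
  calc q K s * K = ∑ j ∈ Finset.range K, q K s := by simp [mul_comm]
    _ ≤ ∑ j ∈ Finset.range K, q j s :=
        Finset.sum_le_sum fun j hj => q_antitone s (Finset.mem_range.mp hj).le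

theorem q_bound : ∃ c : ℝ, 0 < c ∧ ∀ (K : ℕ), 0 < K → ∀ s : St,
    q K s ≤ c * (1 + s.1 + √(Real.log (2 + |(s.2 : ℝ)|))) / √K := by
  obtain ⟨c, hc, hb⟩ := log_bound
  refine ⟨c, hc, ?_⟩
  intro K hK s
  have hKR : (0 : ℝ) < K := by exact_mod_cast hK
  have hK1 : (1 : ℝ) ≤ K := by exact_mod_cast hK
  have h1 := hb (1 / K) _ (by positivity) (by rw [div_le_one hKR]; exact hK1) (Sub_avg K hK) s
  refine (q_le_avg K hK s).trans (h1.trans (le_of_eq ?_))
  rw [Real.sqrt_div (by norm_num), Real.sqrt_one]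
  ring

end Pool.Agent.CollatzMerge
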