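import Pool.Agent.CollatzMerge.Final
import Pool.Agent.CollatzNat.Final

/-!
# Invariant sets are almost invariant under `n ↦ 2 ^ i * 3 ^ j * n + b`
-/

set_option autoImplicit false

open Filter Topology

namespace Pool.Agent.CollatzMerge

theorem inv_iter {S : Set ℤ} (hS : ∀ n, n ∈ S ↔ C n ∈ S) (k : ℕ) (n : ℤ) :
    n ∈ S ↔ C^[k] n ∈ S := by
  induction k generalizing n with
  | zero => rfl
  | succ k ih => rw [Function.iterate_succ_apply, hS n, ih]

/-- The integers `n` with `|n| ≤ N` for which exactly one of `n`, `2 ^ i * 3 ^ j * n + b` is in the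
invariant set `S` have proportion tending to `0`. -/
theorem diff_zero {S : Set ℤ} (hS : ∀ n, n ∈ S ↔ C n ∈ S) (i j : ℕ) (b : ℤ) :
    Tendsto (fun N : ℕ => ({n : ℤ | |n| ≤ N ∧ ¬ (n ∈ S ↔ 2 ^ i * 3 ^ j * n + b ∈ S)}.ncard : ℝ) /
      (2 * N + 1)) atTop (𝓝 0) := by
  obtain ⟨c, hc⟩ := merging
  set W := 1 + (i : ℝ) + j + √(Real.log (2 + |(b : ℝ)|)) with hW
  have hlim : Tendsto (fun N : ℕ => |c * W| / √(Real.log N)) atTop (𝓝 0) := by
    refine Tendsto.const_div_atTop ?_ _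
    exact Real.tendsto_sqrt_atTop.comp (Real.tendsto_log_atTop.comp tendsto_natCast_atTop_atTop)
  refine squeeze_zero' (Eventually.of_forall fun N => by positivity) ?_ hlim
  filter_upwards [eventually_ge_atTop 2] with N hN
  have hN0 : (0 : ℝ) < N := by positivity
  have hlog : 0 < Real.log N := Real.log_pos (by exact_mod_cast hN)
  have hfin : {n : ℤ | |n| ≤ N ∧ ¬ ∃ k : ℕ, (k : ℝ) ≤ i + 3 * Real.log N ∧
      C^[k + j] n = C^[k + i] (2 ^ i * 3 ^ j * n + b)}.Finite :=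
    (Set.finite_Icc (-(N : ℤ)) N).subset fun n hn => abs_le.mp hn.1
  have hsub : {n : ℤ | |n| ≤ N ∧ ¬ (n ∈ S ↔ 2 ^ i * 3 ^ j * n + b ∈ S)} ⊆
      {n : ℤ | |n| ≤ N ∧ ¬ ∃ k : ℕ, (k : ℝ) ≤ i + 3 * Real.log N ∧
      C^[k + j] n = C^[k + i] (2 ^ i * 3 ^ j * n + b)} := by
    intro n hn
    refine ⟨hn.1, ?_⟩
    rintro ⟨k, -, hk⟩
    apply hn.2
    rw [inv_iter hS (k + j) n, hk, ← inv_iter hS]
  have h1 := hc i j b N hN
  have h2 : ({n : ℤ | |n| ≤ N ∧ ¬ (n ∈ S ↔ 2 ^ i * 3 ^ j * n + b ∈ S)}.ncard : ℝ) ≤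
      c * W * N / √(Real.log N) :=
    (Nat.cast_le.mpr (Set.ncard_le_ncard hsub hfin)).trans h1
  rw [div_le_iff₀ (by positivity)]
  have h3 : c * W * N / √(Real.log N) ≤ |c * W| / √(Real.log N) * N := by
    rw [div_mul_eq_mul_div]
    refine div_le_div_of_nonneg_right ?_ (Real.sqrt_nonneg _)
    exact mul_le_mul_of_nonneg_right (le_abs_self _) hN0.le
  have h4 : 0 ≤ |c * W| / √(Real.log N) := by positivity
  nlinarith

/-- A nontrivial invariant set contains, for every finite family of maps `2 ^ i * 3 ^ j * n + b`,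
a set of `n` of the same positive natural density together with its images. -/
theorem thick {S : Set ℤ} (hS : ∀ n, n ∈ S ↔ C n ∈ S) (hne : ∃ a ∈ S, a ≠ 0) :
    ∃ d : ℝ, 0 < d ∧ ∀ A : Finset (ℕ × ℕ × ℤ), Tendsto (fun N : ℕ =>
      ({n : ℤ | |n| ≤ N ∧ n ∈ S ∧ ∀ a ∈ A, 2 ^ a.1 * 3 ^ a.2.1 * n + a.2.2 ∈ S}.ncard : ℝ) /
      (2 * N + 1)) atTop (𝓝 d) := by
  obtain ⟨δ, h1, h2, -⟩ := CollatzNat.densities
  have hd := h1 S hS
  refine ⟨δ S, h2 S hS hne, fun A => ?_⟩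
  classical
  induction A using Finset.induction_on with
  | empty => simpa using hd
  | insert a A ha ih =>
    have h3 := diff_zero hS a.1 a.2.1 a.2.2
    have h4 := ih.sub h3
    rw [sub_zero] at h4
    refine tendsto_of_tendsto_of_tendsto_of_le_of_le h4 ih ?_ ?_
    · intro N
      simp only
      rw [← sub_div]
      refine div_le_div_of_nonneg_right ?_ (by positivity)
      have hfin : {n : ℤ | |n| ≤ N}.Finite :=
        (Set.finite_Icc (-(N : ℤ)) N).subset fun n hn => abs_le.mp hn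
      have hsub : {n : ℤ | |n| ≤ N ∧ n ∈ S ∧ ∀ a ∈ A, 2 ^ a.1 * 3 ^ a.2.1 * n + a.2.2 ∈ S} ⊆
          {n : ℤ | |n| ≤ N ∧ n ∈ S ∧ ∀ x ∈ insert a A, 2 ^ x.1 * 3 ^ x.2.1 * n + x.2.2 ∈ S} ∪
          {n : ℤ | |n| ≤ N ∧ ¬ (n ∈ S ↔ 2 ^ a.1 * 3 ^ a.2.1 * n + a.2.2 ∈ S)} := by
        intro n hn
        by_cases h : 2 ^ a.1 * 3 ^ a.2.1 * n + a.2.2 ∈ S
        · left
          refine ⟨hn.1, hn.2.1, ?_⟩
          intro x hx
          rcases Finset.mem_insert.mp hx with rfl | hx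
          · exact h
          · exact hn.2.2 x hx
        · right
          exact ⟨hn.1, fun hiff => h (hiff.mp hn.2.1)⟩
      have h5 := (Set.ncard_le_ncard hsub ((hfin.subset fun n hn => hn.1).union
        (hfin.subset fun n hn => hn.1))).trans (Set.ncard_union_le _ _)
      have h6 : (({n : ℤ | |n| ≤ N ∧ n ∈ S ∧ ∀ a ∈ A,
          2 ^ a.1 * 3 ^ a.2.1 * n + a.2.2 ∈ S}.ncard : ℕ) : ℝ) ≤
          (({n : ℤ | |n| ≤ N ∧ n ∈ S ∧ ∀ x ∈ insert a A,
            2 ^ x.1 * 3 ^ x.2.1 * n + x.2.2 ∈ S}.ncard : ℕ) : ℝ) +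
          (({n : ℤ | |n| ≤ N ∧ ¬ (n ∈ S ↔ 2 ^ a.1 * 3 ^ a.2.1 * n + a.2.2 ∈ S)}.ncard : ℕ) : ℝ) := by
        exact_mod_cast h5
      linarith
    · intro N
      refine div_le_div_of_nonneg_right (Nat.cast_le.mpr ?_) (by positivity)
      refine Set.ncard_le_ncard ?_ ?_
      · intro n hn
        exact ⟨hn.1, hn.2.1, fun x hx => hn.2.2 x (Finset.mem_insert_of_mem hx)⟩
      · exact (Set.finite_Icc (-(N : ℤ)) N).subset fun n hn => abs_le.mp hn.1

/-- The union of the five cycles. -/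
def Z : Finset ℤ :=
  {1, 4, 2, -1, -2, -5, -14, -7, -20, -10, -17, -50, -25, -74, -37, -110, -55, -164, -82, -41,
    -122, -61, -182, -91, -272, -136, -68, -34, 0}

theorem C_mem_Z : ∀ x ∈ Z, C x ∈ Z := by decide

/-- If, for some `H`, every block of `H + 1` consecutive integers contains an integer whose
trajectory reaches one of the five cycles, then every trajectory does. -/
theorem sufficient (H : ℕ) (h : ∀ n : ℤ, ∃ t : ℕ, t ≤ H ∧ ∃ k : ℕ, C^[k] (n + t) ∈ Z) :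
    ∀ n : ℤ, ∃ k : ℕ, C^[k] n ∈ Z := by
  by_contra hcon
  push Not at hcon
  obtain ⟨x, hx⟩ := hcon
  set S : Set ℤ := {n | ∀ k : ℕ, C^[k] n ∉ Z} with hSdef
  have hS : ∀ n, n ∈ S ↔ C n ∈ S := by
    intro n
    constructor
    · intro hn k
      rw [← Function.iterate_succ_apply]
      exact hn (k + 1)
    · intro hn k hk
      rcases k with _ | k
      · exact hn 0 (C_mem_Z _ hk)
      · rw [Function.iterate_succ_apply] at hk
        exact hn k hk
  have hne : ∃ a ∈ S, a ≠ 0 := by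
    refine ⟨x, hx, ?_⟩
    rintro rfl
    exact hx 0 (by decide)
  obtain ⟨d, hd, hthick⟩ := thick hS hne
  have h1 := hthick ((Finset.range (H + 1)).image fun t : ℕ => (0, 0, (t : ℤ)))
  have h2 : ∀ N : ℕ, {n : ℤ | |n| ≤ N ∧ n ∈ S ∧
      ∀ a ∈ (Finset.range (H + 1)).image (fun t : ℕ => ((0, 0, (t : ℤ)) : ℕ × ℕ × ℤ)),
        2 ^ a.1 * 3 ^ a.2.1 * n + a.2.2 ∈ S} = ∅ := by
    intro N
    rw [Set.eq_empty_iff_forall_notMem]
    rintro n ⟨-, -, hn⟩
    obtain ⟨t, ht, k, hk⟩ := h n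
    have := hn (0, 0, (t : ℤ)) (Finset.mem_image.mpr ⟨t, Finset.mem_range.mpr (by omega), rfl⟩)
    simp only [pow_zero, one_mul] at this
    exact this k hk
  simp only [h2, Set.ncard_empty, Nat.cast_zero, zero_div] at h1
  exact hd.ne (tendsto_nhds_unique h1 tendsto_const_nhds).symm

end Pool.Agent.CollatzMerge
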