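import Pool.Agent.CollatzMerge.Pot

/-!
# The absorption time of the pair chain
-/

set_option autoImplicit false

open Real

namespace Pool.Agent.CollatzMerge

/-- A bounded subsolution with defect `κ` that vanishes at the absorbing state. -/
structure Sub (κ : ℝ) (f : St → ℝ) : Prop where
  nonneg : ∀ s, 0 ≤ f s
  le_one : ∀ s, f s ≤ 1
  zero : f (0, 0) = 0
  step : ∀ s, s ≠ (0, 0) → f s ≤ κ + (f (sE s) + f (sO s)) / 2

theorem Ψ_nonneg {κ : ℝ} (hκ : 0 < κ) (s : St) (hs : √κ * s.1 ≤ 2) : 0 ≤ Ψ κ s := by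
  have hsq := Real.sqrt_pos.mpr hκ
  have hκ2 : √κ * √κ = κ := Real.mul_self_sqrt hκ.le
  have hc := cc_pos s.1
  have hr := r_nonneg s.1
  have hV := V_nonneg s
  have hh : (0 : ℝ) ≤ h s := Nat.cast_nonneg _
  have hΓ := Γ_le s.1
  have hk : (0 : ℝ) ≤ s.1 := Nat.cast_nonneg _
  have h1 : κ * Γ s.1 ≤ 108 * (√κ * s.1) := by
    calc κ * Γ s.1 ≤ κ * (54 * s.1 ^ 2) := by gcongr
      _ = 54 * ((√κ * s.1) * (√κ * s.1)) := by
        conv_lhs => rw [← hκ2]
        ring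
      _ ≤ 54 * (2 * (√κ * s.1)) := by gcongr
      _ = _ := by ring
  unfold Ψ
  have h2 : 0 ≤ (109 * √κ * cc s.1 + 5 * κ) * (V s + h s) := by positivity
  have h3 : 0 ≤ 109 * √κ * r s.1 := by positivity
  have h4 : 0 ≤ √κ * s.1 := by positivity
  nlinarith

theorem Ψ_one {κ : ℝ} (hκ : 0 < κ) (s : St) (hs : √κ * s.1 ≤ 2) (hs1 : 1 ≤ √κ * s.1) :
    1 ≤ Ψ κ s := by
  have hsq := Real.sqrt_pos.mpr hκ
  have hκ2 : √κ * √κ = κ := Real.mul_self_sqrt hκ.le
  have hc := cc_pos s.1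
  have hr := r_nonneg s.1
  have hV := V_nonneg s
  have hh : (0 : ℝ) ≤ h s := Nat.cast_nonneg _
  have hΓ := Γ_le s.1
  have hk : (0 : ℝ) ≤ s.1 := Nat.cast_nonneg _
  have h1 : κ * Γ s.1 ≤ 108 * (√κ * s.1) := by
    calc κ * Γ s.1 ≤ κ * (54 * s.1 ^ 2) := by gcongr
      _ = 54 * ((√κ * s.1) * (√κ * s.1)) := by
        conv_lhs => rw [← hκ2]
        ring
      _ ≤ 54 * (2 * (√κ * s.1)) := by gcongr
      _ = _ := by ring
  unfold Ψ
  have h2 : 0 ≤ (109 * √κ * cc s.1 + 5 * κ) * (V s + h s) := by positivity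
  have h3 : 0 ≤ 109 * √κ * r s.1 := by positivity
  nlinarith

theorem Ψ_le {κ : ℝ} (hκ : 0 < κ) (hκ1 : κ ≤ 1) (s : St) :
    Ψ κ s ≤ √κ * (109 * (s.1 + 1) + 114 * (V s + h s)) := by
  have hsq := Real.sqrt_pos.mpr hκ
  have hκ2 : √κ * √κ = κ := Real.mul_self_sqrt hκ.le
  have hsq1 : √κ ≤ 1 := Real.sqrt_le_one.mpr hκ1
  have hc := cc_pos s.1
  have hc1 := cc_le_one s.1
  have hr := r_le s.1
  have hV := V_nonneg s
  have hh : (0 : ℝ) ≤ h s := Nat.cast_nonneg _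
  have hΓ := Γ_nonneg s.1
  have hk : (0 : ℝ) ≤ s.1 := Nat.cast_nonneg _
  have hκs : κ ≤ √κ := by nlinarith
  unfold Ψ
  have h1 : (109 * √κ * cc s.1 + 5 * κ) * (V s + h s) ≤ (109 * √κ * 1 + 5 * √κ) * (V s + h s) := by
    gcongr
  have h2 : 109 * √κ * (s.1 + r s.1) ≤ 109 * √κ * (s.1 + 1) := by gcongr
  have h3 : 0 ≤ κ * Γ s.1 := by positivity
  nlinarith

theorem sE_fst_le (s : St) : (sE s).1 ≤ s.1 + 1 := by
  unfold sE; split_ifs <;> simp

theorem sO_fst_le (s : St) : (sO s).1 ≤ s.1 + 1 := by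
  unfold sO; split_ifs with h1 h2
  · simp
  · simp
  · simp only; omega

/-- The strict supersolution property outside the finite set `{(0, d) : V (0, d) ≤ R}`. -/
theorem super {κ : ℝ} (hκ : 0 < κ) (s : St) (hs : s.1 = 0 → R < V s) :
    (Ψ κ (sE s) + Ψ κ (sO s)) / 2 + 2 * κ ≤ Ψ κ s := by
  obtain ⟨k, d⟩ := s
  by_cases h0 : k = 0
  · subst h0
    exact super_zero hκ d (hs rfl)
  · by_cases h2 : (2 : ℤ) ∣ d
    · exact super_even hκ (k, d) h0 h2
    · exact super_odd hκ (k, d) h0 h2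

theorem comparison {κ : ℝ} (hκ : 0 < κ) {f : St → ℝ} (hf : Sub κ f) {m : ℝ}
    (hm : ∀ d : ℤ, V (0, d) ≤ R → f (0, d) ≤ m) {L : ℕ} (hL1 : 1 ≤ √κ * L) (hL2 : √κ * L ≤ 2) :
    ∀ s : St, s.1 ≤ L → f s ≤ m + Ψ κ s := by
  have hsq := Real.sqrt_pos.mpr hκ
  have hm0 : 0 ≤ m := by
    have := hm 0 (by simp [V, R])
    rw [hf.zero] at this
    exact this
  have hdom : ∀ s : St, s.1 ≤ L → √κ * s.1 ≤ 2 := by
    intro s hs
    refine le_trans ?_ hL2
    gcongr
  have key : ∀ n : ℕ, ∀ s : St, s.1 ≤ L → f s ≤ m + Ψ κ s + max 0 (1 - n * κ) := by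
    intro n
    induction n with
    | zero =>
      intro s hs
      have h1 := hf.le_one s
      have h2 := Ψ_nonneg hκ s (hdom s hs)
      simp only [Nat.cast_zero, zero_mul, sub_zero]
      have : (1 : ℝ) ≤ max 0 1 := le_max_right _ _
      linarith
    | succ n ih =>
      intro s hs
      have hmax : 0 ≤ max 0 (1 - ((n + 1 : ℕ) : ℝ) * κ) := le_max_left _ _
      have hΨ0 := Ψ_nonneg hκ s (hdom s hs)
      rcases Nat.lt_or_ge s.1 L with hlt | hge
      · by_cases hF : s.1 = 0 ∧ V s ≤ R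
        · obtain ⟨k, d⟩ := s
          obtain ⟨h1, h2⟩ := hF
          simp only at h1
          subst h1
          have := hm d h2
          linarith
        · have hs0 : s ≠ (0, 0) := by
            rintro rfl
            apply hF
            refine ⟨rfl, ?_⟩
            simp [V, R]
          have hsup := super hκ s (fun h1 => by
            by_contra h2
            exact hF ⟨h1, not_lt.mp h2⟩)
          have h1 := hf.step s hs0
          have hE := ih (sE s) ((sE_fst_le s).trans hlt)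
          have hO := ih (sO s) ((sO_fst_le s).trans hlt)
          have h2 : f s ≤ m + Ψ κ s + (max 0 (1 - n * κ) - κ) := by linarith
          rcases le_or_gt (1 - (n : ℝ) * κ) 0 with h3 | h3
          · rw [max_eq_left h3] at h2
            linarith
          · rw [max_eq_right h3.le] at h2
            have h4 : 1 - ((n + 1 : ℕ) : ℝ) * κ ≤ max 0 (1 - ((n + 1 : ℕ) : ℝ) * κ) :=
              le_max_right _ _
            push_cast at h4 ⊢
            linarith
      · have heq : s.1 = L := le_antisymm hs hge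
        have := Ψ_one hκ s (by rw [heq]; exact hL2) (by rw [heq]; exact hL1)
        have := hf.le_one s
        linarith
  intro s hs
  obtain ⟨n, hn⟩ := exists_nat_gt (1 / κ)
  have h1 := key n s hs
  have h2 : 1 - (n : ℝ) * κ ≤ 0 := by
    rw [div_lt_iff₀ hκ] at hn
    linarith
  rw [max_eq_left h2] at h1
  linarith

/-- From `s` a lower bound for `m + Ψ - f` in terms of `m` follows. -/
def HkW (c κ0 : ℝ) (s : St) : Prop :=
  ∀ (κ : ℝ) (f : St → ℝ) (m : ℝ), 0 < κ → κ ≤ κ0 → Sub κ f → 0 ≤ m →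
    (∀ s' : St, √κ * s'.1 ≤ 1 → f s' ≤ m + Ψ κ s') → m ≤ c * (√κ + (m + Ψ κ s - f s))

def Hk (s : St) : Prop := ∃ c κ0 : ℝ, 0 < c ∧ 0 < κ0 ∧ HkW c κ0 s

theorem Hk_zero : Hk (0, 0) := by
  refine ⟨1, 1, one_pos, one_pos, ?_⟩
  intro κ f m hκ hκ1 hf hm _
  rw [hf.zero]
  have := Ψ_nonneg hκ (0, 0) (by simp)
  have := Real.sqrt_nonneg κ
  linarith

theorem HkW_mono {c c' κ0 κ0' : ℝ} (hcc : c ≤ c') (hκκ : κ0' ≤ κ0) {s : St}
    (hk1 : κ0' * ((s.1 : ℝ) ^ 2) ≤ 1) (h : HkW c κ0 s) : HkW c' κ0' s := by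
  intro κ f m hκ hκ1 hf hm hdom
  have h1 := h κ f m hκ (hκ1.trans hκκ) hf hm hdom
  refine h1.trans ?_
  have hsq := Real.sqrt_pos.mpr hκ
  have hκ2 : √κ * √κ = κ := Real.mul_self_sqrt hκ.le
  have h2 : √κ * s.1 ≤ 1 := by
    have h3 : (√κ * s.1) ^ 2 ≤ 1 ^ 2 := by
      have : (√κ * s.1) ^ 2 = κ * (s.1 : ℝ) ^ 2 := by rw [mul_pow, sq, hκ2]
      rw [this, one_pow]
      refine le_trans ?_ hk1
      gcongr
    exact le_of_sq_le_sq h3 zero_le_one
  have h4 := hdom s h2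
  refine mul_le_mul_of_nonneg_right hcc ?_
  linarith
where
  le_of_sq_le_sq {a b : ℝ} (h : a ^ 2 ≤ b ^ 2) (hb : 0 ≤ b) : a ≤ b := by
    nlinarith [sq_nonneg (a - b), sq_nonneg (a + b)]

/-- The constant in the bound for `Ψ`. -/
noncomputable def Bd (s : St) : ℝ := 109 * (s.1 + 1) + 114 * (V s + h s)

theorem Bd_nonneg (s : St) : 0 ≤ Bd s := by
  unfold Bd
  have := V_nonneg s
  positivity

theorem sqrt_mul_le_one {κ : ℝ} (hκ : 0 < κ) {x : ℝ} (h : κ * x ^ 2 ≤ 1) :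
    √κ * x ≤ 1 := by
  have hκ2 : √κ * √κ = κ := Real.mul_self_sqrt hκ.le
  have h3 : (√κ * x) ^ 2 ≤ 1 := by
    have : (√κ * x) ^ 2 = κ * x ^ 2 := by rw [mul_pow, sq, hκ2]
    rw [this]
    exact h
  nlinarith [sq_nonneg (√κ * x - 1), sq_nonneg (√κ * x + 1)]

theorem Hk_step {s s' : St} (hs : s ≠ (0, 0)) (hs' : s' = sE s ∨ s' = sO s) (h : Hk s') :
    Hk s := by
  obtain ⟨c', κ', hc', hκ', hW⟩ := h
  set k : ℝ := (s.1 : ℝ) with hk
  have hk0 : 0 ≤ k := Nat.cast_nonneg _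
  have hBE := Bd_nonneg (sE s)
  have hBO := Bd_nonneg (sO s)
  refine ⟨c' * (3 + Bd (sE s) + Bd (sO s)), min κ' (min 1 (1 / (k + 1) ^ 2)), by positivity,
    by positivity, ?_⟩
  intro κ f m hκ hκ1 hf hm hdom
  have hκa : κ ≤ κ' := hκ1.trans (min_le_left _ _)
  have hκb : κ ≤ 1 := (hκ1.trans (min_le_right _ _)).trans (min_le_left _ _)
  have hκc : κ ≤ 1 / (k + 1) ^ 2 := (hκ1.trans (min_le_right _ _)).trans (min_le_right _ _)
  rw [le_div_iff₀ (by positivity)] at hκc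
  have hsq := Real.sqrt_pos.mpr hκ
  have hκ2 : √κ * √κ = κ := Real.mul_self_sqrt hκ.le
  have hsq1 : √κ ≤ 1 := Real.sqrt_le_one.mpr hκb
  have hκs : κ ≤ √κ := by nlinarith
  have hd1 := sqrt_mul_le_one hκ hκc
  have hdk : √κ * s.1 ≤ 1 := by
    rw [← hk]; nlinarith
  have hdE : √κ * (sE s).1 ≤ 1 := by
    refine le_trans ?_ hd1
    have : ((sE s).1 : ℝ) ≤ k + 1 := by rw [hk]; exact_mod_cast sE_fst_le s
    gcongr
  have hdO : √κ * (sO s).1 ≤ 1 := by
    refine le_trans ?_ hd1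
    have : ((sO s).1 : ℝ) ≤ k + 1 := by rw [hk]; exact_mod_cast sO_fst_le s
    gcongr
  have g0 := hdom s hdk
  have gE := hdom _ hdE
  have gO := hdom _ hdO
  have hΨ0 := Ψ_nonneg hκ s (by linarith)
  have hΨE : Ψ κ (sE s) ≤ √κ * Bd (sE s) := Ψ_le hκ hκb _
  have hΨO : Ψ κ (sO s) ≤ √κ * Bd (sO s) := Ψ_le hκ hκb _
  have hstep := hf.step s hs
  have hm1 := hW κ f m hκ hκa hf hm hdom
  have hg : m + Ψ κ s' - f s' ≤ 2 * (m + Ψ κ s - f s) + √κ * (2 + Bd (sE s) + Bd (sO s)) := by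
    rcases hs' with rfl | rfl <;> nlinarith
  calc m ≤ c' * (√κ + (m + Ψ κ s' - f s')) := hm1
    _ ≤ c' * (√κ + (2 * (m + Ψ κ s - f s) + √κ * (2 + Bd (sE s) + Bd (sO s)))) := by gcongr
    _ = c' * (√κ * (3 + Bd (sE s) + Bd (sO s)) + 2 * (m + Ψ κ s - f s)) := by ring
    _ ≤ c' * (√κ * (3 + Bd (sE s) + Bd (sO s)) +
        (3 + Bd (sE s) + Bd (sO s)) * (m + Ψ κ s - f s)) := by
      gcongr
      linarith
    _ = _ := by ring

/-- Reachability of `(0, 0)` from level one. -/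
theorem Hk_one (n : ℕ) (hn : ∀ d : ℤ, 0 ≤ d → 2 * d + 1 ≤ n → Hk (0, d)) :
    ∀ x : ℤ, 1 ≤ x → x ≤ n → Hk (1, x) := by
  have key : ∀ j : ℕ, ∀ x : ℤ, 1 ≤ x → x ≤ n → x ≤ j → Hk (1, x) := by
    intro j
    induction j with
    | zero => intro x h1 _ h3; simp at h3; omega
    | succ j ih =>
      intro x h1 h2 h3
      rcases Int.even_or_odd' x with ⟨c, rfl | rfl⟩
      · have hs : sE (1, 2 * c) = (1, c) := by simp [sE]
        refine Hk_step (by simp) (Or.inl hs.symm) (ih c (by omega) (by omega) ?_)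
        push_cast at h3
        omega
      · have hs : sO (1, 2 * c + 1) = (0, c) := by
          have h2 : ¬ (2 : ℤ) ∣ 2 * c + 1 := by omega
          simp [sO, h2]
        exact Hk_step (by simp) (Or.inr hs.symm) (hn c (by omega) (by omega))
  intro x h1 h2
  exact key x.toNat x h1 h2 (by omega)

theorem Hk_level_zero (n : ℕ) : ∀ d : ℤ, d.natAbs ≤ n → Hk (0, d) := by
  induction n using Nat.strong_induction_on with
  | _ n ih =>
    intro d hd
    by_cases h0 : d = 0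
    · subst h0; exact Hk_zero
    rcases Int.even_or_odd' d with ⟨c, rfl | rfl⟩
    · have hs : sE (0, 2 * c) = (0, c) := by simp [sE]
      refine Hk_step (by simp; omega) (Or.inl hs.symm) (ih c.natAbs ?_ c ?_)
      · omega
      · omega
    · have hodd : ¬ (2 : ℤ) ∣ 2 * c + 1 := by omega
      rcases le_or_gt 0 c with hc | hc
      · have hs : sE (0, 2 * c + 1) = (1, 3 * c + 2) := by
          simp only [sE, hodd, if_false]
          congr 1
          omega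
        have h1 : Hk (1, 3 * c + 2) := by
          refine Hk_one (3 * c + 2).toNat ?_ _ (by omega) (by omega)
          intro e he1 he2
          refine ih e.natAbs ?_ e ?_
          · omega
          · omega
        exact Hk_step (by simp; omega) (Or.inl hs.symm) h1
      · have hs : sO (0, 2 * c + 1) = (1, -1 - 3 * c) := by
          simp only [sO, hodd, if_false, if_true]
          congr 1
          omega
        have h1 : Hk (1, -1 - 3 * c) := by
          refine Hk_one (-1 - 3 * c).toNat ?_ _ (by omega) (by omega)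
          intro e he1 he2
          refine ih e.natAbs ?_ e ?_
          · omega
          · omega
        exact Hk_step (by simp; omega) (Or.inr hs.symm) h1

theorem Hk_uniform (n : ℕ) : ∃ c κ0 : ℝ, 0 < c ∧ 0 < κ0 ∧ κ0 ≤ 1 ∧
    ∀ d : ℤ, |d| ≤ n → HkW c κ0 (0, d) := by
  induction n with
  | zero =>
    obtain ⟨c, κ0, hc, hκ0, hW⟩ := Hk_level_zero 0 0 (by simp)
    refine ⟨c, min κ0 1, hc, by positivity, min_le_right _ _, ?_⟩
    intro d hd
    have : d = 0 := by simpa using hd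
    subst this
    exact HkW_mono le_rfl (min_le_left _ _) (by simp) hW
  | succ n ih =>
    obtain ⟨c, κ0, hc, hκ0, hκ1, hW⟩ := ih
    obtain ⟨c1, κ1, hc1, hκ1p, hW1⟩ := Hk_level_zero (n + 1) (n + 1) (by omega)
    obtain ⟨c2, κ2, hc2, hκ2p, hW2⟩ := Hk_level_zero (n + 1) (-(n + 1)) (by omega)
    refine ⟨c + c1 + c2, min κ0 (min κ1 κ2), by positivity, by positivity,
      (min_le_left _ _).trans hκ1, ?_⟩
    intro d hd
    by_cases h1 : |d| ≤ n
    · exact HkW_mono (by linarith) (min_le_left _ _) (by simp) (hW d h1)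
    · push_cast at hd
      have h2 : d = n + 1 ∨ d = -(n + 1) := by
        rcases abs_cases d with ⟨h3, _⟩ | ⟨h3, _⟩ <;> omega
      rcases h2 with rfl | rfl
      · exact HkW_mono (by linarith) ((min_le_right _ _).trans (min_le_left _ _)) (by simp) hW1
      · exact HkW_mono (by linarith) ((min_le_right _ _).trans (min_le_right _ _)) (by simp) hW2

/-- A level `L` with `1 ≤ √κ L ≤ 2`. -/
theorem exists_level {κ : ℝ} (hκ : 0 < κ) (hκ1 : κ ≤ 1) : ∃ L : ℕ, 1 ≤ √κ * L ∧ √κ * L ≤ 2 := by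
  have hsq := Real.sqrt_pos.mpr hκ
  have hsq1 : √κ ≤ 1 := Real.sqrt_le_one.mpr hκ1
  refine ⟨⌈1 / √κ⌉₊, ?_, ?_⟩
  · have h1 := Nat.le_ceil (1 / √κ)
    rw [div_le_iff₀ hsq] at h1
    linarith
  · have h1 := (Nat.ceil_lt_add_one (by positivity : 0 ≤ 1 / √κ)).le
    have h2 : √κ * ⌈1 / √κ⌉₊ ≤ √κ * (1 / √κ + 1) := by gcongr
    refine h2.trans ?_
    have : √κ * (1 / √κ + 1) = 1 + √κ := by field_simp
    rw [this]
    linarith

theorem max_bound : ∃ c : ℝ, 0 < c ∧ ∀ (κ : ℝ) (f : St → ℝ), 0 < κ → κ ≤ 1 → Sub κ f →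
    ∀ d : ℤ, V (0, d) ≤ R → f (0, d) ≤ c * √κ := by
  obtain ⟨n, hn⟩ := exists_nat_gt (R ^ 2)
  have hR0 : (0 : ℝ) ≤ R := by unfold R; norm_num
  have hVn : ∀ d : ℤ, V (0, d) ≤ R → |d| ≤ n := by
    intro d hd
    have h1 : V (0, d) ^ 2 = |(d : ℝ)| := by
      unfold V
      rw [Real.sq_sqrt (by positivity)]
      simp
    have h2 : |(d : ℝ)| ≤ R ^ 2 := by
      rw [← h1]
      have := V_nonneg (0, d)
      gcongr
    have h3 : |(d : ℝ)| ≤ n := h2.trans hn.le
    rw [← Int.cast_abs] at h3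
    exact_mod_cast h3
  obtain ⟨c, κ0, hc, hκ0, hκ01, hW⟩ := Hk_uniform n
  refine ⟨c * (1 + (109 + 114 * R)) + 1 / √κ0, by positivity, ?_⟩
  intro κ f hκ hκ1 hf d hd
  have hsq := Real.sqrt_pos.mpr hκ
  have hsq0 := Real.sqrt_pos.mpr hκ0
  rcases le_or_gt κ κ0 with hle | hgt
  · -- the maximum over the finite set
    classical
    let F : Finset ℤ := (Finset.Icc (-(n : ℤ)) n).filter fun e => V (0, e) ≤ R
    have hmem : ∀ e : ℤ, V (0, e) ≤ R → e ∈ F := by
      intro e he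
      have := hVn e he
      rw [abs_le] at this
      exact Finset.mem_filter.mpr ⟨Finset.mem_Icc.mpr this, he⟩
    obtain ⟨d0, hd0, hmax⟩ := Finset.exists_max_image F (fun e => f (0, e)) ⟨d, hmem d hd⟩
    have hd0R : V (0, d0) ≤ R := (Finset.mem_filter.mp hd0).2
    obtain ⟨L, hL1, hL2⟩ := exists_level hκ hκ1
    have hcomp := comparison hκ hf (m := f (0, d0)) (fun e he => hmax e (hmem e he)) hL1 hL2
    have hdom : ∀ s' : St, √κ * s'.1 ≤ 1 → f s' ≤ f (0, d0) + Ψ κ s' := by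
      intro s' hs'
      refine hcomp s' ?_
      have h1 : √κ * s'.1 ≤ √κ * L := hs'.trans hL1
      have h2 : (s'.1 : ℝ) ≤ L := le_of_mul_le_mul_left h1 hsq
      exact_mod_cast h2
    have h1 := hW d0 (hVn d0 hd0R) κ f (f (0, d0)) hκ hle hf (hf.nonneg _) hdom
    have h2 : Ψ κ (0, d0) ≤ √κ * (109 + 114 * R) := by
      refine (Ψ_le hκ hκ1 _).trans ?_
      rw [h_zero]
      simp only [Nat.cast_zero]
      gcongr
      · norm_num
      · linarith
    have h3 : f (0, d0) ≤ c * (√κ + √κ * (109 + 114 * R)) := by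
      refine h1.trans ?_
      gcongr
      linarith
    have h4 := hmax d (hmem d hd)
    have h5 : 0 ≤ 1 / √κ0 * √κ := by positivity
    calc f (0, d) ≤ f (0, d0) := h4
      _ ≤ c * (√κ + √κ * (109 + 114 * R)) := h3
      _ ≤ _ := by nlinarith
  · have h1 : 1 ≤ 1 / √κ0 * √κ := by
      rw [one_div, ← div_eq_inv_mul, le_div_iff₀ hsq0, one_mul]
      exact Real.sqrt_le_sqrt hgt.le
    have h2 : 0 ≤ c * (1 + (109 + 114 * R)) * √κ := by positivity
    have h3 := hf.le_one (0, d)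
    nlinarith

/-- First bound: linear in `V`. -/
theorem basic_bound : ∃ c : ℝ, 0 < c ∧ ∀ (κ : ℝ) (f : St → ℝ), 0 < κ → κ ≤ 1 → Sub κ f →
    ∀ s : St, f s ≤ c * √κ * (1 + s.1 + V s) := by
  obtain ⟨c, hc, hmax⟩ := max_bound
  refine ⟨c + 451, by positivity, ?_⟩
  intro κ f hκ hκ1 hf s
  have hsq := Real.sqrt_pos.mpr hκ
  obtain ⟨L, hL1, hL2⟩ := exists_level hκ hκ1
  have hV := V_nonneg s
  have hk : (0 : ℝ) ≤ s.1 := Nat.cast_nonneg _
  rcases le_or_gt s.1 L with hle | hgt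
  · have h1 := comparison hκ hf (m := c * √κ) (fun e he => hmax κ f hκ hκ1 hf e he) hL1 hL2 s hle
    have h2 := Ψ_le hκ hκ1 s
    have h3 : (h s : ℝ) ≤ s.1 + 3 := by
      have h4 := h_le s
      have h5 := ev_le_add s.1
      exact_mod_cast (by omega : h s ≤ s.1 + 3)
    have h6 : √κ * (109 * (s.1 + 1) + 114 * (V s + h s)) ≤
        √κ * (109 * (s.1 + 1) + 114 * (V s + (s.1 + 3))) := by gcongr
    have h7 : √κ * (109 * (s.1 + 1) + 114 * (V s + (s.1 + 3))) ≤ √κ * (451 * (1 + s.1 + V s)) := by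
      refine mul_le_mul_of_nonneg_left ?_ hsq.le
      linarith
    have h8 : c * √κ ≤ c * √κ * (1 + s.1 + V s) := by
      have : 0 ≤ c * √κ := by positivity
      nlinarith
    calc f s ≤ c * √κ + Ψ κ s := h1
      _ ≤ c * √κ * (1 + s.1 + V s) + √κ * (451 * (1 + s.1 + V s)) := by linarith
      _ = _ := by ring
  · have h1 : 1 ≤ √κ * s.1 := by
      refine hL1.trans ?_
      gcongr
    have h2 := hf.le_one s
    have h3 : (c + 451) * √κ * (1 + s.1 + V s) ≥ 1 := by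
      have h4 : (c + 451) * √κ * (1 + s.1 + V s) = (c + 451) * (√κ * s.1) +
        (c + 451) * √κ * (1 + V s) := by ring
      rw [h4]
      have : 0 ≤ (c + 451) * √κ * (1 + V s) := by positivity
      nlinarith
    linarith

end Pool.Agent.CollatzMerge
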