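import Mathlib

/-!
# The pair chain: parities of two trajectories related by `z = 3 ^ k * y + d`
-/

set_option autoImplicit false

namespace Pool.Agent.CollatzMerge

/-- The Collatz map on the integers: `y / 2` for even `y` and `3 y + 1` for odd `y`. -/
def C (y : ℤ) : ℤ := if Even y then y / 2 else 3 * y + 1

theorem C_even (x : ℤ) : C (2 * x) = x := by
  have h : Even (2 * x) := even_two_mul x
  simp [C]

theorem C_odd (x : ℤ) : C (2 * x + 1) = 2 * (3 * x + 2) := by
  have h : ¬ Even (2 * x + 1) := by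
    rw [Int.not_even_iff_odd]; exact odd_two_mul_add_one x
  rw [C, if_neg h]; ring

theorem C2_odd (x : ℤ) : C (C (2 * x + 1)) = 3 * x + 2 := by
  rw [C_odd, C_even]

/-- `C^[m + k] y = C^[m] z` for some `m ≤ B`. -/
def P (B k : ℕ) (y z : ℤ) : Prop := ∃ m : ℕ, m ≤ B ∧ C^[m + k] y = C^[m] z

theorem P_refl (B : ℕ) (y : ℤ) : P B 0 y y := ⟨0, Nat.zero_le _, rfl⟩

theorem P_symm {B : ℕ} {y z : ℤ} (h : P B 0 y z) : P B 0 z y := by
  obtain ⟨m, hB, hm⟩ := h
  exact ⟨m, hB, by simpa using hm.symm⟩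

theorem P_ee {B k : ℕ} {y z : ℤ} (h : P B k y z) : P (B + 2) k (2 * y) (2 * z) := by
  obtain ⟨m, hB, hm⟩ := h
  refine ⟨m + 1, by omega, ?_⟩
  rw [show m + 1 + k = (m + k) + 1 by ring, Function.iterate_succ_apply,
    Function.iterate_succ_apply, C_even, C_even, hm]

theorem P_oo {B k : ℕ} {y z : ℤ} (h : P B k (3 * y + 2) (3 * z + 2)) :
    P (B + 2) k (2 * y + 1) (2 * z + 1) := by
  obtain ⟨m, hB, hm⟩ := h
  refine ⟨m + 2, by omega, ?_⟩
  rw [show m + 2 + k = (m + k) + 1 + 1 by ring, show m + 2 = m + 1 + 1 by ring,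
    Function.iterate_succ_apply, Function.iterate_succ_apply,
    Function.iterate_succ_apply, Function.iterate_succ_apply, C2_odd, C2_odd, hm]

theorem P_eo {B k : ℕ} {y z : ℤ} (h : P B (k + 1) y (3 * z + 2)) :
    P (B + 2) k (2 * y) (2 * z + 1) := by
  obtain ⟨m, hB, hm⟩ := h
  refine ⟨m + 2, by omega, ?_⟩
  rw [show m + 2 + k = (m + (k + 1)) + 1 by ring, show m + 2 = m + 1 + 1 by ring,
    Function.iterate_succ_apply, Function.iterate_succ_apply,
    Function.iterate_succ_apply, C_even, C2_odd, hm]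

theorem P_oe {B k : ℕ} {y z : ℤ} (h : P B k (3 * y + 2) z) :
    P (B + 2) (k + 1) (2 * y + 1) (2 * z) := by
  obtain ⟨m, hB, hm⟩ := h
  refine ⟨m + 1, by omega, ?_⟩
  rw [show m + 1 + (k + 1) = (m + k) + 1 + 1 by ring,
    Function.iterate_succ_apply, Function.iterate_succ_apply,
    Function.iterate_succ_apply, C2_odd, C_even, hm]

/-- The states of the pair chain: `(k, d)` stands for pairs `(y, 3 ^ k * y + d)`. -/
abbrev St : Type := ℕ × ℤ

/-- The next state when `y` is even. -/
def sE (s : St) : St := if 2 ∣ s.2 then (s.1, s.2 / 2) else (s.1 + 1, (3 * s.2 + 1) / 2)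

/-- The next state when `y` is odd. -/
def sO (s : St) : St :=
  if 2 ∣ s.2 then (s.1, (3 * s.2 + 1 - 3 ^ s.1) / 2)
  else if s.1 = 0 then (1, (1 - 3 * s.2) / 2) else (s.1 - 1, (s.2 - 3 ^ (s.1 - 1)) / 2)

open Classical in
/-- The probability that the chain started at `s` has not been absorbed at `(0, 0)` after `K`
steps. -/
noncomputable def q : ℕ → St → ℝ
  | 0, s => if s = (0, 0) then 0 else 1
  | K + 1, s => if s = (0, 0) then 0 else (q K (sE s) + q K (sO s)) / 2

theorem q_zero_zero (K : ℕ) : q K (0, 0) = 0 := by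
  cases K <;> simp [q]

theorem q_nonneg (K : ℕ) : ∀ s, 0 ≤ q K s := by
  induction K with
  | zero => intro s; rw [q]; split_ifs <;> norm_num
  | succ K ih =>
    intro s
    rw [q]
    split_ifs
    · exact le_rfl
    · have := ih (sE s); have := ih (sO s); positivity

theorem q_le_one (K : ℕ) : ∀ s, q K s ≤ 1 := by
  induction K with
  | zero => intro s; rw [q]; split_ifs <;> norm_num
  | succ K ih =>
    intro s
    rw [q]
    split_ifs
    · exact zero_le_one
    · have := ih (sE s); have := ih (sO s); linarith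

theorem q_succ_le (K : ℕ) : ∀ s, q (K + 1) s ≤ q K s := by
  induction K with
  | zero =>
    intro s
    by_cases h : s = (0, 0)
    · subst h; simp [q]
    · rw [q, q, if_neg h, if_neg h]
      have h1 := q_le_one 0 (sE s); have h2 := q_le_one 0 (sO s); linarith
  | succ K ih =>
    intro s
    by_cases h : s = (0, 0)
    · subst h; simp [q]
    · rw [q, if_neg h]
      conv_rhs => rw [q, if_neg h]
      have h1 := ih (sE s); have h2 := ih (sO s); linarith

theorem q_antitone (s : St) : Antitone (fun K => q K s) :=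
  antitone_nat_of_succ_le fun K => q_succ_le K s

/-- Splitting `range (2 ^ (K + 1))` into even and odd numbers. -/
theorem card_split (K : ℕ) (p : ℕ → Prop) [DecidablePred p] :
    ((Finset.range (2 ^ (K + 1))).filter p).card =
      ((Finset.range (2 ^ K)).filter fun x => p (2 * x)).card +
      ((Finset.range (2 ^ K)).filter fun x => p (2 * x + 1)).card := by
  have h1 : (Finset.range (2 ^ (K + 1))).filter p =
      (((Finset.range (2 ^ K)).filter fun x => p (2 * x)).image fun x => 2 * x) ∪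
      (((Finset.range (2 ^ K)).filter fun x => p (2 * x + 1)).image fun x => 2 * x + 1) := by
    ext x
    simp only [Finset.mem_filter, Finset.mem_range, Finset.mem_union, Finset.mem_image]
    constructor
    · rintro ⟨hx, hp⟩
      rcases Nat.even_or_odd' x with ⟨y, rfl | rfl⟩
      · left; exact ⟨y, ⟨by rw [pow_succ] at hx; omega, hp⟩, rfl⟩
      · right; exact ⟨y, ⟨by rw [pow_succ] at hx; omega, hp⟩, rfl⟩
    · rintro (⟨y, ⟨hy, hp⟩, rfl⟩ | ⟨y, ⟨hy, hp⟩, rfl⟩)
      · exact ⟨by rw [pow_succ]; omega, hp⟩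
      · exact ⟨by rw [pow_succ]; omega, hp⟩
  rw [h1, Finset.card_union_of_disjoint, Finset.card_image_of_injective,
    Finset.card_image_of_injective]
  · intro a b h; simpa using h
  · intro a b h; simpa using h
  · rw [Finset.disjoint_left]
    intro x hx hy
    simp only [Finset.mem_image] at hx hy
    obtain ⟨a, _, rfl⟩ := hx
    obtain ⟨b, _, hb⟩ := hy
    omega

/-- Merging for even `y` follows from merging at the next state. -/
theorem P_of_sE (B k : ℕ) (d x : ℤ)
    (h : P B (sE (k, d)).1 x (3 ^ (sE (k, d)).1 * x + (sE (k, d)).2)) :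
    P (B + 2) k (2 * x) (3 ^ k * (2 * x) + d) := by
  rcases Int.even_or_odd' d with ⟨e, rfl | rfl⟩
  · have hs : sE (k, 2 * e) = (k, e) := by simp [sE]
    rw [hs] at h
    have := P_ee h
    convert this using 1
    ring
  · have hs : sE (k, 2 * e + 1) = (k + 1, 3 * e + 2) := by
      have h2 : ¬ (2 : ℤ) ∣ 2 * e + 1 := by omega
      simp only [sE, h2, if_false]
      congr 1
      omega
    rw [hs] at h
    have h3 : (3 : ℤ) ^ (k + 1) * x + (3 * e + 2) = 3 * (3 ^ k * x + e) + 2 := by ring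
    simp only at h
    rw [h3] at h
    have := P_eo h
    convert this using 1
    ring

/-- The value of `y` at the next state when `y = 2 x + 1`. -/
def nx (k : ℕ) (d x : ℤ) : ℤ := if k = 0 ∧ ¬ 2 ∣ d then x + d / 2 + 1 else 3 * x + 2

/-- Merging for odd `y` follows from merging at the next state. -/
theorem P_of_sO (B k : ℕ) (d x : ℤ)
    (h : P B (sO (k, d)).1 (nx k d x) (3 ^ (sO (k, d)).1 * nx k d x + (sO (k, d)).2)) :
    P (B + 2) k (2 * x + 1) (3 ^ k * (2 * x + 1) + d) := by
  have h3k : Odd ((3 : ℤ) ^ k) := Odd.pow (by decide)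
  obtain ⟨w, hw⟩ := h3k
  rcases Int.even_or_odd' d with ⟨e, rfl | rfl⟩
  · have hs : sO (k, 2 * e) = (k, 3 * e - w) := by
      simp only [sO, dvd_mul_right, if_true]
      congr 1
      rw [hw]; omega
    have hn : nx k (2 * e) x = 3 * x + 2 := by simp [nx]
    rw [hs, hn] at h
    have h4 : (3 : ℤ) ^ k * (2 * x + 1) + 2 * e =
        2 * (3 ^ k * x + w + e) + 1 := by rw [mul_add, mul_one, hw]; ring
    rw [h4]
    refine P_oo ?_
    simp only at h
    convert h using 1
    rw [hw]; ring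
  · by_cases hk : k = 0
    · subst hk
      have h2 : ¬ (2 : ℤ) ∣ 2 * e + 1 := by omega
      have hs : sO (0, 2 * e + 1) = (1, -1 - 3 * e) := by
        simp only [sO, h2, if_false, if_true]
        congr 1
        omega
      have hn : nx 0 (2 * e + 1) x = x + e + 1 := by
        simp only [nx, h2, not_false_eq_true, and_self, if_true]
        omega
      rw [hs, hn] at h
      simp only at h
      have h5 : P B 1 (x + e + 1) (3 * x + 2) := by
        have e1 : (3 : ℤ) ^ 1 * (x + e + 1) + (-1 - 3 * e) = 3 * x + 2 := by ring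
        rw [e1] at h
        exact h
      have h7 := P_symm (P_eo (k := 0) h5)
      have e2 : (3 : ℤ) ^ 0 * (2 * x + 1) + (2 * e + 1) = 2 * (x + e + 1) := by ring
      rw [e2]
      exact h7
    · obtain ⟨j, rfl⟩ : ∃ j, k = j + 1 := ⟨k - 1, by omega⟩
      have h3j : Odd ((3 : ℤ) ^ j) := Odd.pow (by decide)
      obtain ⟨v, hv⟩ := h3j
      have hs : sO (j + 1, 2 * e + 1) = (j, e - v) := by
        have h2 : ¬ (2 : ℤ) ∣ 2 * e + 1 := by omega
        simp only [sO, h2, if_false, hk, Nat.add_sub_cancel]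
        congr 1
        rw [hv]; omega
      have hn : nx (j + 1) (2 * e + 1) x = 3 * x + 2 := by simp [nx]
      rw [hs, hn] at h
      simp only at h
      have h5 : P B j (3 * x + 2) (3 ^ (j + 1) * x + 3 * v + e + 2) := by
        have e1 : (3 : ℤ) ^ j * (3 * x + 2) + (e - v) = 3 ^ (j + 1) * x + 3 * v + e + 2 := by
          rw [pow_succ, hv]; ring
        rw [e1] at h
        exact h
      have h6 := P_oe h5
      have e2 : (3 : ℤ) ^ (j + 1) * (2 * x + 1) + (2 * e + 1) =
          2 * (3 ^ (j + 1) * x + 3 * v + e + 2) := by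
        rw [pow_succ, hv]; ring
      rw [e2]
      exact h6

/-- `x ↦ nx k d (b + g x)` is an arithmetic progression with odd difference. -/
theorem nx_ap (k : ℕ) (d b g : ℤ) (hg : Odd g) :
    ∃ b' g' : ℤ, Odd g' ∧ ∀ x : ℤ, nx k d (b + g * x) = b' + g' * x := by
  by_cases h : k = 0 ∧ ¬ 2 ∣ d
  · refine ⟨b + d / 2 + 1, g, hg, fun x => ?_⟩
    rw [nx, if_pos h]; ring
  · refine ⟨3 * b + 2, 3 * g, (by decide : Odd (3 : ℤ)).mul hg, fun x => ?_⟩
    rw [nx, if_neg h]; ring

/-- The pair `(y, 3 ^ k * y + d)` with state `s = (k, d)` does not merge in time. -/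
def NM (B : ℕ) (s : St) (y : ℤ) : Prop := ¬ P B s.1 y (3 ^ s.1 * y + s.2)

theorem not_NM_zero (B : ℕ) (y : ℤ) : ¬ NM B (0, 0) y := by simp [NM, P_refl]

theorem NM_even {B : ℕ} {s : St} {x : ℤ} (h : NM (B + 2) s (2 * x)) : NM B (sE s) x :=
  fun hP => h (P_of_sE B s.1 s.2 x hP)

theorem NM_odd {B : ℕ} {s : St} {x : ℤ} (h : NM (B + 2) s (2 * x + 1)) :
    NM B (sO s) (nx s.1 s.2 x) :=
  fun hP => h (P_of_sO B s.1 s.2 x hP)

open Classical in
/-- The number of `x < 2 ^ K` with `NM B s (a + g x)`. -/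
noncomputable def cnt (K B : ℕ) (s : St) (a g : ℤ) : ℕ :=
  ((Finset.range (2 ^ K)).filter fun x : ℕ => NM B s (a + g * x)).card

theorem cnt_zero_state (K B : ℕ) (a g : ℤ) : cnt K B (0, 0) a g = 0 := by
  classical
  unfold cnt
  rw [Finset.card_eq_zero, Finset.filter_eq_empty_iff]
  intro x _
  exact not_NM_zero _ _

theorem cnt_split (K B : ℕ) (s : St) (a g : ℤ) :
    cnt (K + 1) B s a g = cnt K B s a (2 * g) + cnt K B s (a + g) (2 * g) := by
  classical
  unfold cnt
  rw [card_split]
  congr 1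
  · congr 1
    refine Finset.filter_congr fun x _ => ?_
    have : a + g * ((2 * x : ℕ) : ℤ) = a + 2 * g * x := by push_cast; ring
    rw [this]
  · congr 1
    refine Finset.filter_congr fun x _ => ?_
    have : a + g * ((2 * x + 1 : ℕ) : ℤ) = a + g + 2 * g * x := by push_cast; ring
    rw [this]

theorem cnt_even (K B : ℕ) (s : St) (c g : ℤ) :
    cnt K (B + 2) s (2 * c) (2 * g) ≤ cnt K B (sE s) c g := by
  classical
  unfold cnt
  refine Finset.card_le_card ?_
  intro x hx
  rw [Finset.mem_filter] at hx ⊢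
  refine ⟨hx.1, NM_even ?_⟩
  have : 2 * (c + g * x) = 2 * c + 2 * g * x := by ring
  rw [this]
  exact hx.2

theorem cnt_odd (K B : ℕ) (s : St) (c g : ℤ) (hg : Odd g) :
    ∃ b' g' : ℤ, Odd g' ∧ cnt K (B + 2) s (2 * c + 1) (2 * g) ≤ cnt K B (sO s) b' g' := by
  classical
  obtain ⟨b', g', hg', hb'⟩ := nx_ap s.1 s.2 c g hg
  refine ⟨b', g', hg', ?_⟩
  unfold cnt
  refine Finset.card_le_card ?_
  intro x hx
  rw [Finset.mem_filter] at hx ⊢
  refine ⟨hx.1, ?_⟩
  rw [← hb']
  refine NM_odd ?_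
  have : 2 * (c + g * x) + 1 = 2 * c + 1 + 2 * g * x := by ring
  rw [this]
  exact hx.2

/-- Number of `x < 2 ^ K` for which the pair with `y = a + g x` does not merge. -/
theorem cnt_le (K : ℕ) : ∀ (s : St) (a g : ℤ), Odd g →
    (cnt K (2 * K) s a g : ℝ) ≤ 2 ^ K * q K s := by
  induction K with
  | zero =>
    intro s a g _
    by_cases h : s = (0, 0)
    · subst h
      rw [cnt_zero_state]; simp [q]
    · rw [q, if_neg h]
      have : cnt 0 (2 * 0) s a g ≤ 1 := by
        classical
        unfold cnt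
        refine (Finset.card_filter_le _ _).trans ?_
        simp
      simp only [pow_zero, mul_one]
      exact_mod_cast this
  | succ K ih =>
    intro s a g hg
    by_cases h : s = (0, 0)
    · subst h
      rw [cnt_zero_state]; simp [q]
    rw [q, if_neg h, cnt_split, show 2 * (K + 1) = 2 * K + 2 by ring]
    obtain ⟨r, hr⟩ := id hg
    rcases Int.even_or_odd' a with ⟨c, rfl | rfl⟩
    · obtain ⟨b', g', hg', hb'⟩ := cnt_odd K (2 * K) s (c + r) g hg
      have e1 : (cnt K (2 * K + 2) s (2 * c) (2 * g) : ℝ) ≤ 2 ^ K * q K (sE s) :=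
        le_trans (Nat.cast_le.mpr (cnt_even K (2 * K) s c g)) (ih (sE s) c g hg)
      have e2 : (cnt K (2 * K + 2) s (2 * c + g) (2 * g) : ℝ) ≤ 2 ^ K * q K (sO s) := by
        have : 2 * c + g = 2 * (c + r) + 1 := by rw [hr]; ring
        rw [this]
        exact le_trans (Nat.cast_le.mpr hb') (ih (sO s) b' g' hg')
      rw [Nat.cast_add, pow_succ]
      have := add_le_add e1 e2
      refine le_trans this (le_of_eq ?_)
      ring
    · obtain ⟨b', g', hg', hb'⟩ := cnt_odd K (2 * K) s c g hg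
      have e1 : (cnt K (2 * K + 2) s (2 * c + 1) (2 * g) : ℝ) ≤ 2 ^ K * q K (sO s) :=
        le_trans (Nat.cast_le.mpr hb') (ih (sO s) b' g' hg')
      have e2 : (cnt K (2 * K + 2) s (2 * c + 1 + g) (2 * g) : ℝ) ≤ 2 ^ K * q K (sE s) := by
        have : 2 * c + 1 + g = 2 * (c + r + 1) := by rw [hr]; ring
        rw [this]
        exact le_trans (Nat.cast_le.mpr (cnt_even K (2 * K) s (c + r + 1) g)) (ih (sE s) _ g hg)
      rw [Nat.cast_add, pow_succ]
      have := add_le_add e1 e2
      refine le_trans this (le_of_eq ?_)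
      ring

end Pool.Agent.CollatzMerge
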