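import Pool.Agent.CollatzMerge.Absorb

/-!
# Almost all `n` merge with `2 ^ i * 3 ^ j * n + b`
-/

set_option autoImplicit false

open Real

namespace Pool.Agent.CollatzMerge

/-- The exceptional set. -/
def MS (B i j : ℕ) (b : ℤ) (N : ℕ) : Set ℤ :=
  {n : ℤ | |n| ≤ N ∧ ∀ k : ℕ, k ≤ B + i → C^[k + j] n ≠ C^[k + i] (2 ^ i * 3 ^ j * n + b)}

theorem MS_finite (B i j : ℕ) (b : ℤ) (N : ℕ) : (MS B i j b N).Finite := by
  refine (Set.finite_Icc (-(N : ℤ)) N).subset ?_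
  intro n hn
  exact abs_le.mp hn.1

theorem MS_zero_NM {B j : ℕ} {b : ℤ} {N : ℕ} {n : ℤ} (hn : n ∈ MS B 0 j b N) :
    NM B (j, b) n := by
  rintro ⟨m, hm, h⟩
  refine hn.2 m (by omega) ?_
  simpa using h

theorem log_triple (c : ℤ) : √(Real.log (2 + |((3 * c + 2 : ℤ) : ℝ)|)) ≤
    1 + √(Real.log (2 + |((2 * c + 1 : ℤ) : ℝ)|)) := by
  set L := Real.log (2 + |((2 * c + 1 : ℤ) : ℝ)|) with hL
  have hpos : 0 < 2 + |((2 * c + 1 : ℤ) : ℝ)| := by positivity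
  have hL0 : 0 ≤ L := Real.log_nonneg (by have := abs_nonneg ((2 * c + 1 : ℤ) : ℝ); linarith)
  have h1 : 2 + |((3 * c + 2 : ℤ) : ℝ)| ≤ 2 * (2 + |((2 * c + 1 : ℤ) : ℝ)|) := by
    push_cast
    have h4 : (3 * (c : ℝ) + 2) = (3 * (2 * c + 1) + 1) / 2 := by ring
    rw [h4, abs_div, abs_of_pos (by norm_num : (0 : ℝ) < 2)]
    have h5 := abs_add_le (3 * (2 * (c : ℝ) + 1)) 1
    rw [abs_mul, abs_of_pos (by norm_num : (0 : ℝ) < 3), abs_one] at h5
    have h6 := abs_nonneg (2 * (c : ℝ) + 1)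
    linarith
  have h2 : Real.log (2 + |((3 * c + 2 : ℤ) : ℝ)|) ≤ 1 + L := by
    calc Real.log (2 + |((3 * c + 2 : ℤ) : ℝ)|)
        ≤ Real.log (2 * (2 + |((2 * c + 1 : ℤ) : ℝ)|)) := Real.log_le_log (by positivity) h1
      _ = Real.log 2 + L := Real.log_mul (by norm_num) hpos.ne'
      _ ≤ 1 + L := by
        have := Real.log_two_lt_d9
        linarith
  have h3 : 0 ≤ √L := Real.sqrt_nonneg _
  rw [Real.sqrt_le_left (by positivity)]
  refine h2.trans ?_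
  have : √L ^ 2 = L := Real.sq_sqrt hL0
  nlinarith

theorem MS_reduce (B N : ℕ) (i : ℕ) : ∀ (j : ℕ) (b : ℤ), ∃ (j' : ℕ) (b' : ℤ),
    MS B i j b N ⊆ MS B 0 j' b' N ∧
    (j' : ℝ) + √(Real.log (2 + |(b' : ℝ)|)) ≤ 2 * i + j + √(Real.log (2 + |(b : ℝ)|)) := by
  induction i with
  | zero => intro j b; exact ⟨j, b, subset_rfl, by simp⟩
  | succ i ih =>
    intro j b
    rcases Int.even_or_odd' b with ⟨c, rfl | rfl⟩
    · obtain ⟨j', b', h1, h2⟩ := ih j c
      refine ⟨j', b', ?_, ?_⟩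
      · refine subset_trans ?_ h1
        intro n hn
        refine ⟨hn.1, fun k hk h => hn.2 k (by omega) ?_⟩
        rw [h, show k + (i + 1) = (k + i) + 1 by ring, Function.iterate_succ_apply]
        have : (2 : ℤ) ^ (i + 1) * 3 ^ j * n + 2 * c = 2 * (2 ^ i * 3 ^ j * n + c) := by ring
        rw [this, C_even]
      · refine h2.trans ?_
        have h3 : √(Real.log (2 + |(c : ℝ)|)) ≤ √(Real.log (2 + |((2 * c : ℤ) : ℝ)|)) := by
          refine Real.sqrt_le_sqrt (Real.log_le_log (by positivity) ?_)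
          push_cast
          rw [abs_mul, abs_of_pos (by norm_num : (0 : ℝ) < 2)]
          have := abs_nonneg (c : ℝ)
          linarith
        push_cast at h3 ⊢
        linarith
    · obtain ⟨j', b', h1, h2⟩ := ih (j + 1) (3 * c + 2)
      refine ⟨j', b', ?_, ?_⟩
      · refine subset_trans ?_ h1
        intro n hn
        refine ⟨hn.1, fun k hk h => hn.2 (k + 1) (by omega) ?_⟩
        rw [show k + 1 + j = k + (j + 1) by ring, h, show k + 1 + (i + 1) = (k + i) + 1 + 1 by ring,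
          Function.iterate_succ_apply, Function.iterate_succ_apply]
        have : (2 : ℤ) ^ (i + 1) * 3 ^ j * n + (2 * c + 1) = 2 * (2 ^ i * 3 ^ j * n + c) + 1 := by
          ring
        rw [this, C2_odd]
        congr 1
        ring
      · refine h2.trans ?_
        have h3 := log_triple c
        push_cast at h3 ⊢
        linarith

theorem MS_zero_card (B K j : ℕ) (b : ℤ) (N : ℕ) (hN : N < 2 ^ (K + 1)) :
    ((MS B 0 j b N).ncard : ℝ) ≤ ∑ x ∈ Finset.range 4, (cnt K B (j, b) (-N + 2 ^ K * x) 1 : ℝ) := by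
  classical
  have h2K : 0 < 2 ^ K := by positivity
  have hN2 : N < 2 * 2 ^ K := by rw [pow_succ] at hN; omega
  let F : Finset ℤ := (Finset.range 4).biUnion fun x : ℕ =>
    ((Finset.range (2 ^ K)).filter fun y : ℕ => NM B (j, b) (-(N : ℤ) + 2 ^ K * (x : ℤ) + 1 * y)).image
      fun y : ℕ => -(N : ℤ) + 2 ^ K * (x : ℤ) + 1 * (y : ℤ)
  have hsub : MS B 0 j b N ⊆ (F : Set ℤ) := by
    intro n hn
    have hn1 := abs_le.mp hn.1
    obtain ⟨u, hu⟩ : ∃ u : ℕ, n = -(N : ℤ) + u := ⟨(n + N).toNat, by omega⟩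
    have hu2 : u < 4 * 2 ^ K := by omega
    have hdiv : u / 2 ^ K < 4 := Nat.div_lt_of_lt_mul (by omega)
    have hmod : u % 2 ^ K < 2 ^ K := Nat.mod_lt _ h2K
    have hsum : (2 ^ K * (u / 2 ^ K) + u % 2 ^ K : ℕ) = u := Nat.div_add_mod _ _
    have hn3 : n = -(N : ℤ) + 2 ^ K * ((u / 2 ^ K : ℕ) : ℤ) + 1 * ((u % 2 ^ K : ℕ) : ℤ) := by
      rw [hu]
      conv_lhs => rw [← hsum]
      push_cast
      ring
    simp only [F, Finset.coe_biUnion, Set.mem_iUnion, Finset.mem_coe]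
    refine ⟨u / 2 ^ K, Finset.mem_range.mpr hdiv, ?_⟩
    rw [Finset.mem_image]
    refine ⟨u % 2 ^ K, ?_, hn3.symm⟩
    rw [Finset.mem_filter]
    refine ⟨Finset.mem_range.mpr hmod, ?_⟩
    rw [← hn3]
    exact MS_zero_NM hn
  have h1 : (MS B 0 j b N).ncard ≤ F.card := by
    rw [← Set.ncard_coe_finset]
    exact Set.ncard_le_ncard hsub (Finset.finite_toSet F)
  have h2 : F.card ≤ ∑ x ∈ Finset.range 4, cnt K B (j, b) (-N + 2 ^ K * x) 1 := by
    refine Finset.card_biUnion_le.trans (Finset.sum_le_sum fun x _ => ?_)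
    exact Finset.card_image_le
  exact_mod_cast h1.trans h2

/-- The main theorem. -/
theorem merging : ∃ c : ℝ, ∀ (i j : ℕ) (b : ℤ) (N : ℕ), 2 ≤ N →
    (({n : ℤ | |n| ≤ N ∧ ¬ ∃ k : ℕ, (k : ℝ) ≤ i + 3 * Real.log N ∧
      C^[k + j] n = C^[k + i] (2 ^ i * 3 ^ j * n + b)}.ncard : ℕ) : ℝ) ≤
      c * (1 + i + j + √(Real.log (2 + |(b : ℝ)|))) * N / √(Real.log N) := by
  obtain ⟨c, hc, hq⟩ := q_bound
  refine ⟨16 * c, ?_⟩
  intro i j b N hN
  set K := Nat.log 2 N with hK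
  have hK1 : 0 < K := Nat.log_pos (by norm_num) hN
  have hNlt : N < 2 ^ (K + 1) := Nat.lt_pow_succ_log_self (by norm_num) N
  have hNge : 2 ^ K ≤ N := Nat.pow_log_le_self 2 (by omega)
  have hNR : (0 : ℝ) < N := by positivity
  have hKR : (0 : ℝ) < K := by exact_mod_cast hK1
  have hlogN : 0 < Real.log N := Real.log_pos (by exact_mod_cast hN)
  have hlog2 := Real.log_two_gt_d9
  have hlog2' := Real.log_two_lt_d9
  have hKlog : K * Real.log 2 ≤ Real.log N := by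
    have h1 : Real.log ((2 : ℝ) ^ K) ≤ Real.log N := by
      refine Real.log_le_log (by positivity) ?_
      exact_mod_cast hNge
    rwa [Real.log_pow] at h1
  have hlogK : Real.log N ≤ 2 * K := by
    have h1 : Real.log N ≤ Real.log ((2 : ℝ) ^ (K + 1)) := by
      refine Real.log_le_log hNR ?_
      exact_mod_cast hNlt.le
    rw [Real.log_pow] at h1
    push_cast at h1
    have h2 : (1 : ℝ) ≤ K := by exact_mod_cast hK1
    nlinarith
  have hB : ∀ k : ℕ, k ≤ 2 * K + i → (k : ℝ) ≤ i + 3 * Real.log N := by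
    intro k hk
    have h1 : (k : ℝ) ≤ 2 * K + i := by exact_mod_cast hk
    nlinarith
  have hsub : {n : ℤ | |n| ≤ N ∧ ¬ ∃ k : ℕ, (k : ℝ) ≤ i + 3 * Real.log N ∧
      C^[k + j] n = C^[k + i] (2 ^ i * 3 ^ j * n + b)} ⊆ MS (2 * K) i j b N := by
    intro n hn
    exact ⟨hn.1, fun k hk h => hn.2 ⟨k, hB k hk, h⟩⟩
  obtain ⟨j', b', h1, h2⟩ := MS_reduce (2 * K) N i j b
  have h3 : ({n : ℤ | |n| ≤ N ∧ ¬ ∃ k : ℕ, (k : ℝ) ≤ i + 3 * Real.log N ∧
      C^[k + j] n = C^[k + i] (2 ^ i * 3 ^ j * n + b)}.ncard : ℝ) ≤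
      ((MS (2 * K) 0 j' b' N).ncard : ℝ) :=
    Nat.cast_le.mpr (Set.ncard_le_ncard (hsub.trans h1) (MS_finite _ _ _ _ _))
  have h4 := MS_zero_card (2 * K) K j' b' N hNlt
  have h5 : ∑ x ∈ Finset.range 4, (cnt K (2 * K) (j', b') (-N + 2 ^ K * x) 1 : ℝ) ≤
      ∑ x ∈ Finset.range 4, (2 : ℝ) ^ K * q K (j', b') :=
    Finset.sum_le_sum fun x _ => cnt_le K (j', b') _ 1 (by decide)
  rw [Finset.sum_const, Finset.card_range, nsmul_eq_mul] at h5
  have h6 := hq K hK1 (j', b')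
  simp only at h6
  set W := 1 + (i : ℝ) + j + √(Real.log (2 + |(b : ℝ)|)) with hW
  have hW0 : 0 ≤ W := by positivity
  have h7 : 1 + (j' : ℝ) + √(Real.log (2 + |(b' : ℝ)|)) ≤ 2 * W := by
    have : 0 ≤ √(Real.log (2 + |(b : ℝ)|)) := Real.sqrt_nonneg _
    have : (0 : ℝ) ≤ j := Nat.cast_nonneg j
    rw [hW]
    linarith
  have h8 : q K (j', b') ≤ c * (2 * W) / √K := by
    refine h6.trans ?_
    gcongr
  have h9 : 1 / √K ≤ 2 / √(Real.log N) := by
    rw [div_le_div_iff₀ (Real.sqrt_pos.mpr hKR) (Real.sqrt_pos.mpr hlogN), one_mul]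
    rw [Real.sqrt_le_left (by positivity), mul_pow, Real.sq_sqrt hKR.le]
    linarith
  have h2KR : (2 : ℝ) ^ K ≤ N := by exact_mod_cast hNge
  have hq0 := q_nonneg K (j', b')
  calc _ ≤ ((4 : ℕ) : ℝ) * (2 ^ K * q K (j', b')) := (h3.trans h4).trans h5
    _ ≤ ((4 : ℕ) : ℝ) * (N * (c * (2 * W) / √K)) := by gcongr
    _ = 8 * c * W * N * (1 / √K) := by push_cast; ring
    _ ≤ 8 * c * W * N * (2 / √(Real.log N)) := by gcongr
    _ = 16 * c * W * N / √(Real.log N) := by ring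

end Pool.Agent.CollatzMerge
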