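import Pool.Agent.CollatzMerge.Chain

/-!
# The potential: a strict supersolution for the pair chain outside a finite set
-/

set_option autoImplicit false

open Real

namespace Pool.Agent.CollatzMerge

/-! ### The function `V` -/

/-- The square root of the size of `d` relative to `3 ^ k`. -/
noncomputable def V (s : St) : ℝ := √(|(s.2 : ℝ)| / 3 ^ s.1)

theorem V_nonneg (s : St) : 0 ≤ V s := Real.sqrt_nonneg _

theorem sqrt_le_lin {x u a b : ℝ} (ha : 0 ≤ a) (hb : 0 ≤ b) (hu : 0 ≤ u)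
    (h : x ≤ a ^ 2 * u + b ^ 2) : √x ≤ a * √u + b := by
  have h1 : 0 ≤ a * √u + b := by positivity
  rw [Real.sqrt_le_left h1]
  have h2 : √u ^ 2 = u := Real.sq_sqrt hu
  have h3 : 0 ≤ a * √u * b := by positivity
  nlinarith

theorem u_sE (s : St) : |((sE s).2 : ℝ)| / 3 ^ (sE s).1 ≤ |(s.2 : ℝ)| / 3 ^ s.1 / 2 + 1 / 6 := by
  obtain ⟨k, d⟩ := s
  have h3 : (0 : ℝ) < 3 ^ k := by positivity
  rcases Int.even_or_odd' d with ⟨e, rfl | rfl⟩
  · have hs : sE (k, 2 * e) = (k, e) := by simp [sE]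
    rw [hs]
    simp only
    push_cast
    rw [abs_mul, abs_of_pos (by norm_num : (0 : ℝ) < 2)]
    have : 2 * |(e : ℝ)| / 3 ^ k / 2 = |(e : ℝ)| / 3 ^ k := by ring
    rw [this]
    linarith
  · have hs : sE (k, 2 * e + 1) = (k + 1, 3 * e + 2) := by
      have h2 : ¬ (2 : ℤ) ∣ 2 * e + 1 := by omega
      simp only [sE, h2, if_false]
      congr 1
      omega
    rw [hs]
    simp only
    push_cast
    have h1 : |(3 * (e : ℝ) + 2)| ≤ (3 * |2 * (e : ℝ) + 1| + 1) / 2 := by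
      have h4 : (3 * (e : ℝ) + 2) = (3 * (2 * e + 1) + 1) / 2 := by ring
      rw [h4, abs_div, abs_of_pos (by norm_num : (0 : ℝ) < 2)]
      have h5 := abs_add_le (3 * (2 * (e : ℝ) + 1)) 1
      rw [abs_mul, abs_of_pos (by norm_num : (0 : ℝ) < 3), abs_one] at h5
      linarith
    rw [pow_succ, div_le_iff₀ (by positivity)]
    have h6 : (|2 * (e : ℝ) + 1| / 3 ^ k / 2 + 1 / 6) * (3 ^ k * 3) =
        3 * |2 * (e : ℝ) + 1| / 2 + 3 ^ k / 2 := by
      field_simp
      ring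
    rw [h6]
    have h7 : (1 : ℝ) ≤ 3 ^ k := one_le_pow₀ (by norm_num)
    linarith

theorem u_sO (s : St) :
    |((sO s).2 : ℝ)| / 3 ^ (sO s).1 ≤ 3 / 2 * (|(s.2 : ℝ)| / 3 ^ s.1) + 1 / 2 := by
  obtain ⟨k, d⟩ := s
  have h3 : (0 : ℝ) < 3 ^ k := by positivity
  have h31 : (1 : ℝ) ≤ 3 ^ k := one_le_pow₀ (by norm_num)
  have h3k : Odd ((3 : ℤ) ^ k) := Odd.pow (by decide)
  obtain ⟨w, hw⟩ := h3k
  have hwR : (3 : ℝ) ^ k = 2 * w + 1 := by exact_mod_cast hw
  rcases Int.even_or_odd' d with ⟨e, rfl | rfl⟩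
  · have hs : sO (k, 2 * e) = (k, 3 * e - w) := by
      simp only [sO, dvd_mul_right, if_true]
      congr 1
      rw [hw]; omega
    rw [hs]
    simp only
    push_cast
    have h1 : |(3 * (e : ℝ) - w)| ≤ 3 / 2 * |2 * (e : ℝ)| + 3 ^ k / 2 := by
      have h5 := abs_sub (3 * (e : ℝ)) (w : ℝ)
      rw [abs_mul, abs_of_pos (by norm_num : (0 : ℝ) < 3)] at h5
      rw [abs_mul, abs_of_pos (by norm_num : (0 : ℝ) < 2)]
      have h6 : |(w : ℝ)| = w := abs_of_nonneg (by linarith)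
      rw [h6] at h5
      linarith
    rw [div_le_iff₀ h3]
    have h6 : (3 / 2 * (|2 * (e : ℝ)| / 3 ^ k) + 1 / 2) * 3 ^ k =
        3 / 2 * |2 * (e : ℝ)| + 3 ^ k / 2 := by
      field_simp
    rw [h6]
    exact h1
  · by_cases hk : k = 0
    · subst hk
      have hs : sO (0, 2 * e + 1) = (1, -1 - 3 * e) := by
        have h2 : ¬ (2 : ℤ) ∣ 2 * e + 1 := by omega
        simp only [sO, h2, if_false, if_true]
        congr 1
        omega
      rw [hs]
      simp only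
      push_cast
      have h1 : |(-1 - 3 * (e : ℝ))| ≤ (3 * |2 * (e : ℝ) + 1| + 1) / 2 := by
        have h4 : (-1 - 3 * (e : ℝ)) = (1 - 3 * (2 * e + 1)) / 2 := by ring
        rw [h4, abs_div, abs_of_pos (by norm_num : (0 : ℝ) < 2)]
        have h5 := abs_sub 1 (3 * (2 * (e : ℝ) + 1))
        rw [abs_mul, abs_of_pos (by norm_num : (0 : ℝ) < 3), abs_one] at h5
        linarith
      have h7 := abs_nonneg (2 * (e : ℝ) + 1)
      simp only [pow_one, pow_zero, div_one]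
      linarith
    · obtain ⟨j, rfl⟩ : ∃ j, k = j + 1 := ⟨k - 1, by omega⟩
      have h3j : Odd ((3 : ℤ) ^ j) := Odd.pow (by decide)
      obtain ⟨v, hv⟩ := h3j
      have hvR : (3 : ℝ) ^ j = 2 * v + 1 := by exact_mod_cast hv
      have hs : sO (j + 1, 2 * e + 1) = (j, e - v) := by
        have h2 : ¬ (2 : ℤ) ∣ 2 * e + 1 := by omega
        simp only [sO, h2, if_false, hk, Nat.add_sub_cancel]
        congr 1
        rw [hv]; omega
      rw [hs]
      simp only
      push_cast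
      have hj : (0 : ℝ) < 3 ^ j := by positivity
      have h1 : |((e : ℝ) - v)| ≤ (|2 * (e : ℝ) + 1| + 3 ^ j) / 2 := by
        have h4 : ((e : ℝ) - v) = ((2 * e + 1) - 3 ^ j) / 2 := by rw [hvR]; ring
        rw [h4, abs_div, abs_of_pos (by norm_num : (0 : ℝ) < 2)]
        have h5 := abs_sub (2 * (e : ℝ) + 1) (3 ^ j)
        rw [abs_of_pos hj] at h5
        linarith
      rw [div_le_iff₀ hj]
      have h6 : (3 / 2 * (|2 * (e : ℝ) + 1| / 3 ^ (j + 1)) + 1 / 2) * 3 ^ j =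
          (|2 * (e : ℝ) + 1| + 3 ^ j) / 2 := by
        rw [pow_succ]
        field_simp
      rw [h6]
      exact h1

theorem V_sE (s : St) : V (sE s) ≤ 0.7072 * V s + 0.41 := by
  have h := u_sE s
  have h0 : 0 ≤ |(s.2 : ℝ)| / 3 ^ s.1 := by positivity
  refine sqrt_le_lin (by norm_num) (by norm_num) h0 ?_
  norm_num at h ⊢
  nlinarith

theorem V_sO (s : St) : V (sO s) ≤ 1.2248 * V s + 0.7072 := by
  have h := u_sO s
  have h0 : 0 ≤ |(s.2 : ℝ)| / 3 ^ s.1 := by positivity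
  refine sqrt_le_lin (by norm_num) (by norm_num) h0 ?_
  norm_num at h ⊢
  nlinarith

theorem V_avg (s : St) : (V (sE s) + V (sO s)) / 2 ≤ 0.966 * V s + 0.56 := by
  have := V_sE s; have := V_sO s; norm_num at *; linarith

/-! ### The function `h`: expected time until `d` is odd -/

/-- Auxiliary function: `H e d` is the 2-adic valuation of `d` if it is less than `e`, and `e + 1`
otherwise. -/
def H : ℕ → ℤ → ℕ
  | 0, _ => 1
  | e + 1, d => if 2 ∣ d then 1 + H e (d / 2) else 0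

theorem H_le (e : ℕ) : ∀ d, H e d ≤ e + 1 := by
  induction e with
  | zero => intro d; simp [H]
  | succ e ih =>
    intro d
    rw [H]
    split_ifs
    · have := ih (d / 2); omega
    · omega

theorem H_even (e : ℕ) (d : ℤ) : H (e + 1) (2 * d) = 1 + H e d := by
  simp [H]

theorem H_odd (e : ℕ) (d : ℤ) (hd : ¬ 2 ∣ d) : H (e + 1) d = 0 := by
  simp [H, hd]

theorem H_avg (e : ℕ) : ∀ (d o : ℤ), ¬ 2 ∣ o →
    H (e + 1) d + H (e + 1) (3 * d - 2 ^ e * o) = 2 * H e d := by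
  induction e with
  | zero =>
    intro d o ho
    rcases Int.even_or_odd' d with ⟨c, rfl | rfl⟩
    · rw [H_even, H_odd]
      · simp [H]
      · intro h; apply ho; omega
    · rw [H_odd _ (2 * c + 1) (by omega)]
      obtain ⟨x, hx⟩ : ∃ x, 3 * (2 * c + 1) - 2 ^ 0 * o = 2 * x := by
        obtain ⟨y, rfl | rfl⟩ := Int.even_or_odd' o
        · exact absurd (dvd_mul_right 2 y) ho
        · exact ⟨3 * c + 1 - y, by ring⟩
      rw [hx, H_even]
      simp [H]
  | succ e ih =>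
    intro d o ho
    rcases Int.even_or_odd' d with ⟨c, rfl | rfl⟩
    · have h1 : 3 * (2 * c) - 2 ^ (e + 1) * o = 2 * (3 * c - 2 ^ e * o) := by ring
      rw [h1, H_even, H_even, H_even]
      have := ih c o ho
      omega
    · rw [H_odd _ (2 * c + 1) (by omega), H_odd _ (2 * c + 1) (by omega), H_odd]
      have h1 : 3 * (2 * c + 1) - 2 ^ (e + 1) * o = 2 * (3 * c + 1 - 2 ^ e * o) + 1 := by ring
      rw [h1]
      omega

/-- The 2-adic valuation of `3 ^ k - 1`. -/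
def ev (k : ℕ) : ℕ := padicValNat 2 (3 ^ k - 1)

theorem ev_zero : ev 0 = 0 := by simp [ev]

theorem three_pow_sub_one_ne {k : ℕ} (hk : k ≠ 0) : 3 ^ k - 1 ≠ 0 := by
  have : 3 ^ 1 ≤ 3 ^ k := Nat.pow_le_pow_right (by norm_num) (by omega)
  omega

theorem ev_pos {k : ℕ} (hk : k ≠ 0) : 1 ≤ ev k := by
  unfold ev
  have h0 := three_pow_sub_one_ne hk
  have h2 : 2 ∣ 3 ^ k - 1 := by
    have : Odd (3 ^ k) := Odd.pow (by decide)
    obtain ⟨w, hw⟩ := this
    exact ⟨w, by omega⟩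
  exact one_le_padicValNat_of_dvd h0 h2

theorem ev_spec {k : ℕ} (hk : k ≠ 0) : ∃ o : ℤ, ¬ 2 ∣ o ∧ (3 : ℤ) ^ k - 1 = 2 ^ ev k * o := by
  have h0 := three_pow_sub_one_ne hk
  have h1 : 2 ^ ev k ∣ 3 ^ k - 1 := pow_padicValNat_dvd
  obtain ⟨o, ho⟩ := h1
  refine ⟨o, ?_, ?_⟩
  · intro h
    have h2 : 2 ∣ o := by exact_mod_cast h
    obtain ⟨x, rfl⟩ := h2
    have h3 : 2 ^ (ev k + 1) ∣ 3 ^ k - 1 := ⟨x, by rw [ho]; ring⟩
    exact pow_succ_padicValNat_not_dvd h0 h3
  · have h4 : 1 ≤ 3 ^ k := Nat.one_le_pow _ _ (by norm_num)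
    have h5 : ((3 ^ k - 1 : ℕ) : ℤ) = 3 ^ k - 1 := by push_cast [Nat.cast_sub h4]; ring
    rw [← h5, ho]
    push_cast
    ring

theorem ev_le {k : ℕ} (hk : k ≠ 0) : ev k ≤ 2 + padicValNat 2 k := by
  rcases Nat.even_or_odd k with he | ho
  · have h := padicValNat.pow_two_sub_pow (x := 3) (y := 1) (by norm_num) (by norm_num)
      (by norm_num) hk he
    rw [one_pow] at h
    have h1 : padicValNat 2 (3 + 1) = 2 := by
      rw [show (3 + 1 : ℕ) = 2 ^ 2 by norm_num]; exact padicValNat.prime_pow 2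
    have h2 : padicValNat 2 (3 - 1) = 1 := by
      rw [show (3 - 1 : ℕ) = 2 ^ 1 by norm_num]; exact padicValNat.prime_pow 1
    rw [h1, h2] at h
    unfold ev
    omega
  · obtain ⟨j, rfl⟩ := ho
    have h0 := three_pow_sub_one_ne hk
    by_contra hcon
    push Not at hcon
    have h1 : 2 ^ ev (2 * j + 1) ∣ 3 ^ (2 * j + 1) - 1 := pow_padicValNat_dvd
    have h2 : 4 ∣ 3 ^ (2 * j + 1) - 1 := by
      refine dvd_trans ?_ h1
      rw [show (4 : ℕ) = 2 ^ 2 by norm_num]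
      exact pow_dvd_pow 2 (by omega)
    have h3 : 3 ^ (2 * j + 1) % 4 = 3 := by
      rw [pow_succ, pow_mul, Nat.mul_mod, Nat.pow_mod]
      norm_num
    omega

theorem ev_le_add (k : ℕ) : ev k ≤ k + 2 := by
  by_cases hk : k = 0
  · subst hk; simp [ev_zero]
  · have h1 := ev_le hk
    have h2 : padicValNat 2 k < k := by
      refine lt_of_le_of_lt (padicValNat_le_nat_log k) (Nat.log_lt_self 2 hk)
    omega

theorem sum_ev_le (n : ℕ) : ∑ i ∈ Finset.range (n + 1), ev i ≤ 3 * n := by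
  have h : ∀ n : ℕ, ∑ i ∈ Finset.range (n + 1), ev i ≤ 2 * n + padicValNat 2 n.factorial := by
    intro n
    induction n with
    | zero => simp [ev_zero]
    | succ n ih =>
      rw [Finset.sum_range_succ, Nat.factorial_succ,
        padicValNat.mul (Nat.succ_ne_zero n) (Nat.factorial_ne_zero n)]
      have := ev_le (Nat.succ_ne_zero n)
      simp only [Nat.succ_eq_add_one] at this ⊢
      omega
  have h1 := h n
  have h2 := sub_one_mul_padicValNat_factorial (p := 2) n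
  omega

/-- The function `h`. -/
def h (s : St) : ℕ := if s.1 = 0 then 0 else H (ev s.1) s.2

theorem h_zero (d : ℤ) : h (0, d) = 0 := by simp [h]

theorem h_le (s : St) : h s ≤ ev s.1 + 1 := by
  unfold h
  split_ifs
  · omega
  · exact H_le _ _

theorem h_odd (s : St) (hs : ¬ 2 ∣ s.2) : h s = 0 := by
  unfold h
  split_ifs with h0
  · rfl
  · obtain ⟨e, he⟩ : ∃ e, ev s.1 = e + 1 := ⟨ev s.1 - 1, by have := ev_pos h0; omega⟩
    rw [he, H_odd _ _ hs]

theorem h_even (s : St) (h0 : s.1 ≠ 0) (hs : 2 ∣ s.2) : h (sE s) + h (sO s) + 2 = 2 * h s := by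
  obtain ⟨k, d⟩ := s
  simp only at h0 hs
  obtain ⟨c, rfl⟩ := hs
  obtain ⟨e, he⟩ : ∃ e, ev k = e + 1 := ⟨ev k - 1, by have := ev_pos h0; omega⟩
  obtain ⟨o, ho, hko⟩ := ev_spec h0
  have h1 : sE (k, 2 * c) = (k, c) := by simp [sE]
  have h2 : sO (k, 2 * c) = (k, 3 * c - 2 ^ e * o) := by
    simp only [sO, dvd_mul_right, if_true]
    congr 1
    have : 3 * (2 * c) + 1 - 3 ^ k = 2 * (3 * c - 2 ^ e * o) := by
      rw [he, pow_succ] at hko
      linarith
    rw [this]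
    simp
  rw [h1, h2]
  unfold h
  simp only [h0, if_false]
  rw [he, H_even]
  have := H_avg e c o ho
  omega

/-! ### The convex function `Γ` -/

/-- Twice the second difference of `Γ`. -/
noncomputable def Gs (i : ℕ) : ℝ := 24 + 5 * ((ev (i + 1) : ℝ) + ev (i - 1))

/-- The first difference of `Γ`. -/
noncomputable def D (k : ℕ) : ℝ := ∑ i ∈ Finset.range (k + 1), Gs i

/-- A convex function with large second differences. -/
noncomputable def Γ (k : ℕ) : ℝ := ∑ j ∈ Finset.range k, D j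

theorem Gs_nonneg (i : ℕ) : 0 ≤ Gs i := by unfold Gs; positivity

theorem D_nonneg (k : ℕ) : 0 ≤ D k := Finset.sum_nonneg fun i _ => Gs_nonneg i

theorem Γ_nonneg (k : ℕ) : 0 ≤ Γ k := Finset.sum_nonneg fun i _ => D_nonneg i

theorem Γ_zero : Γ 0 = 0 := by simp [Γ]

theorem Γ_conv (k : ℕ) : Γ (k + 2) + Γ k - 2 * Γ (k + 1) = Gs (k + 1) := by
  have h1 : Γ (k + 2) = Γ (k + 1) + D (k + 1) := Finset.sum_range_succ _ _
  have h2 : Γ (k + 1) = Γ k + D k := Finset.sum_range_succ _ _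
  have h3 : D (k + 1) = D k + Gs (k + 1) := Finset.sum_range_succ _ _
  rw [h1, h2, h3]; ring

theorem D_le (k : ℕ) : D k ≤ 54 * (k + 1) := by
  unfold D Gs
  rw [Finset.sum_add_distrib, ← Finset.mul_sum, Finset.sum_add_distrib]
  have h1 : ∑ i ∈ Finset.range (k + 1), (ev (i + 1) : ℝ) ≤ 3 * (k + 1) := by
    have h2 := sum_ev_le (k + 1)
    rw [Finset.sum_range_succ'] at h2
    have h3 : ∑ i ∈ Finset.range (k + 1), ev (i + 1) ≤ 3 * (k + 1) := by omega
    exact_mod_cast h3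
  have h4 : ∑ i ∈ Finset.range (k + 1), (ev (i - 1) : ℝ) ≤ 3 * k := by
    rw [Finset.sum_range_succ']
    simp only [Nat.add_sub_cancel, Nat.zero_sub, ev_zero, Nat.cast_zero, add_zero]
    rcases Nat.eq_zero_or_pos k with rfl | hk
    · simp
    · obtain ⟨j, rfl⟩ : ∃ j, k = j + 1 := ⟨k - 1, by omega⟩
      have h2 := sum_ev_le j
      have h3 : ∑ i ∈ Finset.range (j + 1), ev i ≤ 3 * (j + 1) := by omega
      exact_mod_cast h3
  simp only [Finset.sum_const, Finset.card_range, nsmul_eq_mul, Nat.cast_add, Nat.cast_one]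
  nlinarith

theorem Γ_le (k : ℕ) : Γ k ≤ 54 * k ^ 2 := by
  induction k with
  | zero => simp [Γ_zero]
  | succ k ih =>
    have h2 : Γ (k + 1) = Γ k + D k := Finset.sum_range_succ _ _
    rw [h2]
    have := D_le k
    push_cast
    have h0 : (0 : ℝ) ≤ k := Nat.cast_nonneg k
    rcases Nat.eq_zero_or_pos k with rfl | hk
    · simp [Γ_zero] at *; linarith
    · have h1 : (1 : ℝ) ≤ k := by exact_mod_cast hk
      nlinarith

/-! ### The potential -/

/-- A bounded concave correction. -/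
noncomputable def r (k : ℕ) : ℝ := 1 / 200 - 1 / ((k : ℝ) + 200)

/-- The coefficient of `V + h`. -/
noncomputable def cc (k : ℕ) : ℝ := 1 / ((k : ℝ) + 200) ^ 5

theorem r_nonneg (k : ℕ) : 0 ≤ r k := by
  unfold r
  have h0 : (0 : ℝ) ≤ k := Nat.cast_nonneg k
  rw [sub_nonneg]
  exact one_div_le_one_div_of_le (by norm_num) (by linarith)

theorem r_le (k : ℕ) : r k ≤ 1 := by
  unfold r
  have h0 : (0 : ℝ) ≤ k := Nat.cast_nonneg k
  have : 0 ≤ 1 / ((k : ℝ) + 200) := by positivity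
  linarith

theorem r_zero : r 0 = 0 := by simp [r]

theorem cc_pos (k : ℕ) : 0 < cc k := by unfold cc; positivity

theorem cc_le_one (k : ℕ) : cc k ≤ 1 := by
  unfold cc
  have h0 : (0 : ℝ) ≤ k := Nat.cast_nonneg k
  rw [div_le_one (by positivity)]
  exact one_le_pow₀ (by linarith)

theorem cc_succ_le (k : ℕ) : cc (k + 1) ≤ cc k := by
  unfold cc
  have h0 : (0 : ℝ) ≤ k := Nat.cast_nonneg k
  refine one_div_le_one_div_of_le (by positivity) ?_
  push_cast
  gcongr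
  linarith

theorem cc_ratio (k : ℕ) : 0.966 * cc k ≤ cc (k + 1) := by
  unfold cc
  have h0 : (0 : ℝ) ≤ k := Nat.cast_nonneg k
  push_cast
  set x : ℝ := (k : ℝ) + 200 with hx
  have hx2 : (k : ℝ) + 1 + 200 = x + 1 := by rw [hx]; ring
  rw [hx2]
  have hx0 : 200 ≤ x := by linarith
  have h1 : 0.966 * (x + 1) ^ 5 ≤ x ^ 5 := by
    have h2 : (x + 1) ≤ 1.005 * x := by norm_num; linarith
    have h3 : (x + 1) ^ 5 ≤ (1.005 * x) ^ 5 := by gcongr
    rw [mul_pow] at h3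
    have h4 : (0 : ℝ) < x ^ 5 := by positivity
    norm_num at h3 ⊢
    nlinarith
  rw [mul_one_div, div_le_div_iff₀ (by positivity) (by positivity), one_mul]
  exact h1

theorem r_conc (k : ℕ) :
    cc k * ((k : ℝ) + 5) ≤ r (k + 1) - (r (k + 2) + r k) / 2 := by
  unfold cc r
  have h0 : (0 : ℝ) ≤ k := Nat.cast_nonneg k
  push_cast
  set x : ℝ := (k : ℝ) + 200 with hx
  have hx1 : (k : ℝ) + 1 + 200 = x + 1 := by rw [hx]; ring
  have hx2 : (k : ℝ) + 2 + 200 = x + 2 := by rw [hx]; ring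
  rw [hx1, hx2]
  have hx0 : 200 ≤ x := by linarith
  have hk5 : (k : ℝ) + 5 ≤ x := by rw [hx]; linarith
  have e1 : (1 / 200 - 1 / (x + 1) - (1 / 200 - 1 / (x + 2) + (1 / 200 - 1 / x)) / 2) =
      1 / (x * (x + 1) * (x + 2)) := by
    have a1 : x ≠ 0 := by positivity
    have a2 : x + 1 ≠ 0 := by positivity
    have a3 : x + 2 ≠ 0 := by positivity
    field_simp
    ring
  rw [e1]
  have e2 : 1 / x ^ 5 * ((k : ℝ) + 5) ≤ 1 / x ^ 4 := by
    have : 1 / x ^ 5 * ((k : ℝ) + 5) ≤ 1 / x ^ 5 * x := by gcongr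
    refine this.trans (le_of_eq ?_)
    field_simp
  refine e2.trans ?_
  refine one_div_le_one_div_of_le (by positivity) ?_
  have h1 : (x + 1) * (x + 2) ≤ x ^ 3 := by nlinarith [sq_nonneg (x - 200)]
  calc x * (x + 1) * (x + 2) = x * ((x + 1) * (x + 2)) := by ring
    _ ≤ x * x ^ 3 := by gcongr
    _ = x ^ 4 := by ring

/-- The potential. -/
noncomputable def Ψ (κ : ℝ) (s : St) : ℝ :=
  109 * √κ * (s.1 + r s.1) - κ * Γ s.1 + (109 * √κ * cc s.1 + 5 * κ) * (V s + h s)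

/-- The bound for `V` outside the exceptional set. -/
noncomputable def R : ℝ := 100 * 200 ^ 5

theorem super_even {κ : ℝ} (hκ : 0 < κ) (s : St) (h0 : s.1 ≠ 0) (hs : 2 ∣ s.2) :
    (Ψ κ (sE s) + Ψ κ (sO s)) / 2 + 2 * κ ≤ Ψ κ s := by
  have hh := h_even s h0 hs
  have hV := V_avg s
  have hV0 := V_nonneg s
  have e1 : (sE s).1 = s.1 := by simp [sE, hs]
  have e2 : (sO s).1 = s.1 := by simp [sO, hs]
  have hhR : (h (sE s) : ℝ) + h (sO s) + 2 = 2 * h s := by exact_mod_cast hh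
  unfold Ψ
  rw [e1, e2]
  have hc : 0 < 109 * √κ * cc s.1 := by
    have := cc_pos s.1
    have := Real.sqrt_pos.mpr hκ
    positivity
  set g := 109 * √κ * cc s.1 + 5 * κ with hg
  have hg5 : 5 * κ ≤ g := by linarith
  have h1 : (V (sE s) + h (sE s) + (V (sO s) + h (sO s))) / 2 ≤ V s + h s - 0.44 := by
    norm_num at *; linarith
  have h2 : g * ((V (sE s) + h (sE s) + (V (sO s) + h (sO s))) / 2) ≤ g * (V s + h s - 0.44) := by
    have : 0 ≤ g := by linarith
    gcongr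
  norm_num at h2 ⊢
  nlinarith

theorem super_odd {κ : ℝ} (hκ : 0 < κ) (s : St) (h0 : s.1 ≠ 0) (hs : ¬ 2 ∣ s.2) :
    (Ψ κ (sE s) + Ψ κ (sO s)) / 2 + 2 * κ ≤ Ψ κ s := by
  obtain ⟨k, hk⟩ : ∃ k, s.1 = k + 1 := ⟨s.1 - 1, by omega⟩
  have hV := V_avg s
  have hV0 := V_nonneg s
  have e1 : (sE s).1 = k + 2 := by simp [sE, hs, hk]
  have e2 : (sO s).1 = k := by simp [sO, hs, hk]
  have hh0 := h_odd s hs
  have hE := h_le (sE s)
  have hO := h_le (sO s)
  rw [e1] at hE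
  rw [e2] at hO
  have hER : (h (sE s) : ℝ) ≤ ev (k + 2) + 1 := by exact_mod_cast hE
  have hOR : (h (sO s) : ℝ) ≤ ev k + 1 := by exact_mod_cast hO
  have hev1 : (ev (k + 2) : ℝ) ≤ k + 4 := by exact_mod_cast (ev_le_add (k + 2))
  have hev2 : (ev k : ℝ) ≤ k + 2 := by exact_mod_cast (ev_le_add k)
  have hΓ := Γ_conv k
  have hr := r_conc k
  have hcr := cc_ratio k
  have hcs1 := cc_succ_le k
  have hcs2 := cc_succ_le (k + 1)
  have hcp := cc_pos (k + 2)
  have hsq := Real.sqrt_pos.mpr hκ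
  have hVE := V_nonneg (sE s)
  have hVO := V_nonneg (sO s)
  have hhE : (0 : ℝ) ≤ h (sE s) := Nat.cast_nonneg _
  have hhO : (0 : ℝ) ≤ h (sO s) := Nat.cast_nonneg _
  unfold Ψ
  rw [e1, e2, hk, hh0]
  push_cast
  set a := 109 * √κ with ha
  have ha0 : 0 < a := by positivity
  -- average of the last terms
  have t1 : (a * cc (k + 2) + 5 * κ) * (V (sE s) + h (sE s)) ≤
      (a * cc k + 5 * κ) * (V (sE s) + h (sE s)) := by
    gcongr
    linarith
  have t2 : ((a * cc k + 5 * κ) * (V (sE s) + h (sE s)) +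
      (a * cc k + 5 * κ) * (V (sO s) + h (sO s))) / 2 ≤
      (a * cc k + 5 * κ) * (0.966 * V s + 0.56 + (ev (k + 2) + ev k + 2) / 2) := by
    have e3 : ((a * cc k + 5 * κ) * (V (sE s) + h (sE s)) +
      (a * cc k + 5 * κ) * (V (sO s) + h (sO s))) / 2 =
      (a * cc k + 5 * κ) * ((V (sE s) + V (sO s)) / 2 + (h (sE s) + h (sO s)) / 2) := by ring
    rw [e3]
    have hck := cc_pos k
    have : 0 ≤ a * cc k + 5 * κ := by positivity
    refine mul_le_mul_of_nonneg_left ?_ this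
    linarith
  have t3 : (a * cc k + 5 * κ) * (0.966 * V s) ≤ (a * cc (k + 1) + 5 * κ) * V s := by
    have e4 : (a * cc k + 5 * κ) * (0.966 * V s) = (a * (0.966 * cc k) + 5 * κ * 0.966) * V s := by
      ring
    rw [e4]
    refine mul_le_mul_of_nonneg_right ?_ hV0
    have := mul_le_mul_of_nonneg_left hcr ha0.le
    norm_num at this ⊢
    linarith
  have t4 : a * cc k * (0.56 + (ev (k + 2) + ev k + 2) / 2) ≤
      a * (r (k + 1) - (r (k + 2) + r k) / 2) := by
    rw [mul_assoc]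
    refine mul_le_mul_of_nonneg_left (le_trans ?_ hr) ha0.le
    refine mul_le_mul_of_nonneg_left ?_ (cc_pos k).le
    norm_num
    linarith
  have t5 : κ * ((Γ (k + 2) + Γ k) / 2 - Γ (k + 1)) =
      κ * (12 + 5 / 2 * (ev (k + 2) + ev k)) := by
    have : (Γ (k + 2) + Γ k) / 2 - Γ (k + 1) = Gs (k + 1) / 2 := by linarith
    rw [this]
    unfold Gs
    rw [Nat.add_sub_cancel]
    ring
  clear_value a
  have t6 : (a * cc k + 5 * κ) * (0.966 * V s + 0.56 + (ev (k + 2) + ev k + 2) / 2) =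
      (a * cc k + 5 * κ) * (0.966 * V s) + a * cc k * (0.56 + (ev (k + 2) + ev k + 2) / 2) +
      5 * κ * (0.56 + (ev (k + 2) + ev k + 2) / 2) := by ring
  rw [t6] at t2
  have t7 : 5 * κ * (0.56 + (ev (k + 2) + ev k + 2) / 2) + 2 * κ ≤
      κ * (12 + 5 / 2 * (ev (k + 2) + ev k)) := by
    norm_num
    nlinarith
  rw [← t5] at t7
  have t8 : (a * ((k : ℝ) + 2 + r (k + 2)) + a * (k + r k)) / 2 =
      a * ((k : ℝ) + 1 + r (k + 1)) - a * (r (k + 1) - (r (k + 2) + r k) / 2) := by ring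
  rw [add_zero]
  have t9 : κ * ((Γ (k + 2) + Γ k) / 2 - Γ (k + 1)) =
      (κ * Γ (k + 2) + κ * Γ k) / 2 - κ * Γ (k + 1) := by ring
  rw [t9] at t7
  linarith

theorem super_zero {κ : ℝ} (hκ : 0 < κ) (d : ℤ) (hd : R < V (0, d)) :
    (Ψ κ (sE (0, d)) + Ψ κ (sO (0, d))) / 2 + 2 * κ ≤ Ψ κ (0, d) := by
  have hV := V_avg (0, d)
  have hsq := Real.sqrt_pos.mpr hκ
  set a := 109 * √κ with ha
  have ha0 : 0 < a := by positivity
  have hc0 : cc 0 = 1 / 200 ^ 5 := by simp [cc]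
  by_cases hs : (2 : ℤ) ∣ d
  · have e1 : (sE (0, d)).1 = 0 := by simp [sE, hs]
    have e2 : (sO (0, d)).1 = 0 := by simp [sO, hs]
    have h1 : h (sE (0, d)) = 0 := by simp [h, e1]
    have h2 : h (sO (0, d)) = 0 := by simp [h, e2]
    unfold Ψ
    rw [e1, e2, h1, h2, h_zero]
    simp only [Nat.cast_zero]
    rw [r_zero, Γ_zero]
    have hR : (100 : ℝ) ≤ V (0, d) := by
      have : (100 : ℝ) ≤ R := by unfold R; norm_num
      linarith
    have hg : 0 < a * cc 0 + 5 * κ := by have := cc_pos 0; positivity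
    have hg5 : 5 * κ ≤ a * cc 0 + 5 * κ := by have := cc_pos 0; nlinarith
    have h3 : (a * cc 0 + 5 * κ) * ((V (sE (0, d)) + V (sO (0, d))) / 2) ≤
        (a * cc 0 + 5 * κ) * (V (0, d) - 1) := by
      refine mul_le_mul_of_nonneg_left ?_ hg.le
      norm_num at hV ⊢
      linarith
    rw [← ha]
    nlinarith
  · have e1 : (sE (0, d)).1 = 1 := by simp [sE, hs]
    have e2 : (sO (0, d)).1 = 1 := by simp [sO, hs]
    have hE := h_le (sE (0, d))
    have hO := h_le (sO (0, d))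
    rw [e1] at hE
    rw [e2] at hO
    have hev := ev_le_add 1
    have hER : (h (sE (0, d)) : ℝ) ≤ 4 := by exact_mod_cast (by omega : h (sE (0, d)) ≤ 4)
    have hOR : (h (sO (0, d)) : ℝ) ≤ 4 := by exact_mod_cast (by omega : h (sO (0, d)) ≤ 4)
    unfold Ψ
    rw [e1, e2, h_zero, r_zero, Γ_zero]
    simp only [Nat.cast_zero, Nat.cast_one]
    rw [← ha]
    have hr1 := r_le 1
    have hcs := cc_succ_le 0
    rw [zero_add] at hcs
    have hc1 := cc_pos 1
    have hc0p := cc_pos 0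
    have hΓ := Γ_nonneg 1
    have h3 : ((a * cc 1 + 5 * κ) * (V (sE (0, d)) + h (sE (0, d))) +
        (a * cc 1 + 5 * κ) * (V (sO (0, d)) + h (sO (0, d)))) / 2 ≤
        (a * cc 0 + 5 * κ) * (0.966 * V (0, d) + 4.56) := by
      have e3 : ((a * cc 1 + 5 * κ) * (V (sE (0, d)) + h (sE (0, d))) +
        (a * cc 1 + 5 * κ) * (V (sO (0, d)) + h (sO (0, d)))) / 2 =
        (a * cc 1 + 5 * κ) * ((V (sE (0, d)) + V (sO (0, d))) / 2 +
          (h (sE (0, d)) + h (sO (0, d))) / 2) := by ring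
      rw [e3]
      have hVE := V_nonneg (sE (0, d))
      have hVO := V_nonneg (sO (0, d))
      refine mul_le_mul ?_ ?_ (by positivity) (by positivity)
      · gcongr
      · norm_num at hV ⊢
        linarith
    have h4 : (a * cc 0 + 5 * κ) * (2 * 200 ^ 5 + 1) ≤
        (a * cc 0 + 5 * κ) * (V (0, d) - (0.966 * V (0, d) + 4.56)) := by
      refine mul_le_mul_of_nonneg_left ?_ (by positivity)
      unfold R at hd
      norm_num at hd ⊢
      linarith
    have h5 : (a * cc 0 + 5 * κ) * (2 * 200 ^ 5 + 1) ≥ 2 * a + 2 * κ := by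
      rw [hc0]
      have : (a * (1 / 200 ^ 5) + 5 * κ) * (2 * 200 ^ 5 + 1) =
        2 * a + a / 200 ^ 5 + 5 * κ * (2 * 200 ^ 5 + 1) := by
        field_simp
      rw [this]
      have : 0 < a / 200 ^ 5 := by positivity
      nlinarith
    have h6 : 0 ≤ κ * Γ 1 := by positivity
    have h7 : a * (1 + r 1) ≤ 2 * a := by nlinarith
    have h8 : (a * cc 0 + 5 * κ) * (V (0, d) - (0.966 * V (0, d) + 4.56)) =
      (a * cc 0 + 5 * κ) * V (0, d) - (a * cc 0 + 5 * κ) * (0.966 * V (0, d) + 4.56) := by ring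
    rw [h8] at h4
    linarith

end Pool.Agent.CollatzMerge
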